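import Mathlib

/-!
# The exponential bound
-/

open Filter Topology

namespace Pool.Agent.V7H23.ZO

/-- A polynomial times a smaller exponential. -/
lemma poly_exp (c : ℕ) {r : ℝ} (hr0 : 0 < r) (hr : r < 1) :
    ∃ C ρ : ℝ, 0 < ρ ∧ ρ < 1 ∧ ∀ n : ℕ, ((n : ℝ) + 1) ^ c * r ^ n ≤ C * ρ ^ n := by
  obtain ⟨ρ, hρ1, hρ2⟩ := exists_between hr
  have hρ0 : 0 < ρ := hr0.trans hρ1
  have hq : |r / ρ| < 1 := by
    rw [abs_of_pos (div_pos hr0 hρ0), div_lt_one hρ0]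
    exact hρ1
  have h1 := tendsto_pow_const_mul_const_pow_of_abs_lt_one c hq
  have h2 := (tendsto_add_atTop_iff_nat 1).2 h1
  obtain ⟨C, hC⟩ := h2.bddAbove_range
  refine ⟨C * (r / ρ)⁻¹, ρ, hρ0, hρ2, fun n => ?_⟩
  have h3 : ((n + 1 : ℕ) : ℝ) ^ c * (r / ρ) ^ (n + 1) ≤ C := hC ⟨n, rfl⟩
  have h4 : 0 < r / ρ := div_pos hr0 hρ0
  have h5 : ((n : ℝ) + 1) ^ c * r ^ n = ((n + 1 : ℕ) : ℝ) ^ c * (r / ρ) ^ (n + 1) *
      ((r / ρ)⁻¹ * ρ ^ n) := by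
    rw [pow_succ, div_pow]
    push_cast
    field_simp
  rw [h5, mul_assoc C]
  exact mul_le_mul_of_nonneg_right h3 (by positivity)

/-- The floor in the exponent. -/
lemma floor_exp {K : ℕ} (hK : 1 ≤ K) {θ : ℝ} (hθ0 : 0 ≤ θ) (hθ : θ < 1) :
    ∃ C r : ℝ, 0 < C ∧ 0 < r ∧ r < 1 ∧ ∀ n : ℕ, θ ^ (n / K) ≤ C * r ^ n := by
  set t := max θ (1 / 2) with ht
  have ht0 : 0 < t := lt_max_of_lt_right (by norm_num)
  have ht1 : t < 1 := max_lt hθ (by norm_num)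
  have hKr : (0 : ℝ) < K := by exact_mod_cast hK
  set r := t ^ ((1 : ℝ) / K) with hr
  have hr0 : 0 < r := Real.rpow_pos_of_pos ht0 _
  have hr1 : r < 1 := Real.rpow_lt_one ht0.le ht1 (by positivity)
  have hrK : r ^ K = t := by
    rw [hr, ← Real.rpow_natCast, ← Real.rpow_mul ht0.le, one_div,
      inv_mul_cancel₀ hKr.ne', Real.rpow_one]
  refine ⟨t⁻¹, r, by positivity, hr0, hr1, fun n => ?_⟩
  have h1 : θ ^ (n / K) ≤ t ^ (n / K) := pow_le_pow_left₀ hθ0 (le_max_left _ _) _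
  refine h1.trans ?_
  have h2 : n ≤ K * (n / K + 1) := by
    have := Nat.lt_mul_div_succ n (show 0 < K by omega)
    omega
  have h3 : t ^ (n / K + 1) ≤ r ^ n := by
    rw [← hrK, ← pow_mul]
    exact pow_le_pow_of_le_one hr0.le hr1.le h2
  rw [pow_succ] at h3
  rw [inv_mul_eq_div, le_div_iff₀ ht0]
  exact h3

/-- **The exponential bound.** -/
theorem exp_bound {b K c : ℕ} (hb : 1 ≤ b) (hK : 1 ≤ K) {S : ℕ → ℤ} {T : ℕ → ℕ}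
    (hS : ∀ n, |S n| ≤ ((b ^ K - 2) ^ (n / K) * b ^ (n % K + 1) : ℕ))
    (hT : ∀ n, b ^ n ≤ (n + 1) ^ c * T n) :
    ∃ C ρ : ℝ, 0 < ρ ∧ ρ < 1 ∧ ∀ n, |(S n : ℝ)| ≤ C * ρ ^ n * T n := by
  have hb' : (1 : ℝ) ≤ b := by exact_mod_cast hb
  have hb0 : (0 : ℝ) < b := by linarith
  have hbK : (0 : ℝ) < (b : ℝ) ^ K := by positivity
  set θ : ℝ := ((b ^ K - 2 : ℕ) : ℝ) / (b : ℝ) ^ K with hθ
  have hθ0 : 0 ≤ θ := by positivity
  have hθ1 : θ < 1 := by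
    rw [hθ, div_lt_one hbK]
    have h1 : b ^ K - 2 < b ^ K := Nat.sub_lt (by positivity) (by norm_num)
    exact_mod_cast h1
  obtain ⟨C₁, r, hC₁, hr0, hr1, hr⟩ := floor_exp hK hθ0 hθ1
  obtain ⟨C₂, ρ, hρ0, hρ1, hρ⟩ := poly_exp c hr0 hr1
  refine ⟨b * C₁ * C₂, ρ, hρ0, hρ1, fun n => ?_⟩
  have h1 : |(S n : ℝ)| ≤ (b : ℝ) * θ ^ (n / K) * (b : ℝ) ^ n := by
    have h2 : ((|S n| : ℤ) : ℝ) ≤ (((b ^ K - 2) ^ (n / K) * b ^ (n % K + 1) : ℕ) : ℝ) := by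
      exact_mod_cast hS n
    rw [Int.cast_abs] at h2
    refine h2.trans (le_of_eq ?_)
    rw [hθ, div_pow, ← pow_mul]
    push_cast
    have h3 : (b : ℝ) ^ n = (b : ℝ) ^ (K * (n / K)) * (b : ℝ) ^ (n % K) := by
      rw [← pow_add, Nat.div_add_mod]
    rw [h3, pow_succ]
    field_simp
  have hT' : (b : ℝ) ^ n ≤ ((n : ℝ) + 1) ^ c * T n := by exact_mod_cast hT n
  have hT0 : (0 : ℝ) ≤ T n := Nat.cast_nonneg _
  calc |(S n : ℝ)| ≤ (b : ℝ) * θ ^ (n / K) * (b : ℝ) ^ n := h1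
    _ ≤ (b : ℝ) * (C₁ * r ^ n) * (((n : ℝ) + 1) ^ c * T n) := by
      apply mul_le_mul _ hT' (by positivity) (by positivity)
      exact mul_le_mul_of_nonneg_left (hr n) hb0.le
    _ = (b : ℝ) * C₁ * (((n : ℝ) + 1) ^ c * r ^ n) * T n := by ring
    _ ≤ (b : ℝ) * C₁ * (C₂ * ρ ^ n) * T n := by
      apply mul_le_mul_of_nonneg_right _ hT0
      exact mul_le_mul_of_nonneg_left (hρ n) (by positivity)
    _ = b * C₁ * C₂ * ρ ^ n * T n := by ring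

/-- The share. -/
theorem share_bound {p q : ℕ} {C ρ : ℝ} {n : ℕ}
    (h : |(((p : ℤ) - (q : ℤ) : ℤ) : ℝ)| ≤ C * ρ ^ n * ((p + q : ℕ) : ℝ)) (h0 : 1 ≤ p + q) :
    |(q : ℝ) / ((p : ℝ) + q) - 1 / 2| ≤ C / 2 * ρ ^ n := by
  have hT : (0 : ℝ) < (p : ℝ) + q := by exact_mod_cast h0
  have h1 : (q : ℝ) / ((p : ℝ) + q) - 1 / 2 = -((p : ℝ) - q) / (2 * ((p : ℝ) + q)) := by
    field_simp
    ring
  rw [h1, abs_div, abs_neg, abs_of_pos (show (0 : ℝ) < 2 * ((p : ℝ) + q) by linarith),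
    div_le_iff₀ (by linarith)]
  push_cast at h
  linarith

end Pool.Agent.V7H23.ZO
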