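import Pool.Agent.W539.Ker.Inertia

/-!
# The signature of a form with commuting skew operators
-/

open Finset

namespace Pool.Agent.V7H23.ZO

open Pool.Agent.W539.Ker

variable {M : Type*} [AddCommGroup M] [Module ℚ M] {B : M →ₗ[ℚ] M →ₗ[ℚ] ℚ}

/-- A maximal orthogonal family of anisotropic vectors in a subspace. -/
structure OMP (B : M →ₗ[ℚ] M →ₗ[ℚ] ℚ) (P : Submodule ℚ M) {ι : Type*} (x : ι → M) : Prop where
  mem : ∀ i, x i ∈ P
  ne : ∀ i, B (x i) (x i) ≠ 0
  orth : ∀ i j, i ≠ j → B (x i) (x j) = 0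
  max : ∀ u ∈ P, (∀ i, B u (x i) = 0) → B u u = 0

/-- The sum of the signs. -/
def sgn (B : M →ₗ[ℚ] M →ₗ[ℚ] ℚ) {ι : Type*} [Fintype ι] (x : ι → M) : ℤ :=
  ∑ i, ((SignType.sign (B (x i) (x i)) : SignType) : ℤ)

/-- The sizes of the orthogonal families of anisotropic vectors are bounded. -/
def FBdd (B : M →ₗ[ℚ] M →ₗ[ℚ] ℚ) (N : ℕ) : Prop :=
  ∀ (m : ℕ) (z : Fin m → M), (∀ i, B (z i) (z i) ≠ 0) → (∀ i j, i ≠ j → B (z i) (z j) = 0) →
    m ≤ N

variable {P : Submodule ℚ M}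

lemma OMP.om {ι : Type*} {x : ι → M} (h : OMP B P x) :
    OM (B.compl₁₂ P.subtype P.subtype) (fun i => (⟨x i, h.mem i⟩ : P)) where
  ne i := h.ne i
  orth i j hij := h.orth i j hij
  max u hu := h.max u.1 u.2 hu

lemma OMP.sgn_eq (hB : ∀ x y, B x y = B y x) {ι κ : Type*} [Fintype ι] [Fintype κ] {x : ι → M}
    {y : κ → M} (h : OMP B P x) (h' : OMP B P y) : sgn B x = sgn B y := by
  have e1 := OM.signature_eq (B := B.compl₁₂ P.subtype P.subtype) (fun a b => hB _ _) h.om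
  have e2 := OM.signature_eq (B := B.compl₁₂ P.subtype P.subtype) (fun a b => hB _ _) h'.om
  rw [e1] at e2
  exact e2

lemma exists_OMP (hB : ∀ x y, B x y = B y x) {N : ℕ} (hN : FBdd B N) (P : Submodule ℚ M) :
    ∃ m, ∃ x : Fin m → M, OMP B P x := by
  obtain ⟨m, x, hx⟩ := exists_OM (B := B.compl₁₂ P.subtype P.subtype) (fun a b => hB _ _)
    (N := N) (fun m z h1 h2 => hN m (fun i => (z i).1) h1 h2)
  exact ⟨m, fun i => (x i).1, fun i => (x i).2, hx.ne, hx.orth,
    fun u hu hu' => hx.max ⟨u, hu⟩ hu'⟩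

/-- Removal of a skew operator whose square is positive on its image. -/
lemma OMP.step (hB : ∀ x y, B x y = B y x) {N : ℕ} (hN : FBdd B N) {j : M →ₗ[ℚ] M}
    (hj : ∀ x ∈ P, j x ∈ P) (hs : ∀ x ∈ P, ∀ y ∈ P, B (j x) y = -B x (j y)) {l : ℚ}
    (hl : 0 < l) (hc : ∀ x ∈ P, j (j (j x)) = l • j x) {ι κ : Type*} [Fintype ι] [Fintype κ]
    {x : ι → M} {y : κ → M} (h : OMP B P x) (h' : OMP B (P ⊓ LinearMap.ker j) y) :
    sgn B x = sgn B y := by
  classical
  set P1 : Submodule ℚ M := P ⊓ LinearMap.ker (j ∘ₗ j - l • LinearMap.id) with hP1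
  have memP1 : ∀ u, u ∈ P1 ↔ u ∈ P ∧ j (j u) = l • u := by
    intro u
    rw [hP1, Submodule.mem_inf, LinearMap.mem_ker, LinearMap.sub_apply, sub_eq_zero]
    rfl
  obtain ⟨m, z, hz⟩ := exists_OMP hB hN P1
  have hz1 : ∀ i, z i ∈ P ∧ j (j (z i)) = l • z i := fun i => (memP1 _).1 (hz.mem i)
  have hy1 : ∀ i, y i ∈ P ∧ j (y i) = 0 := fun i => h'.mem i
  -- orthogonality of the two parts
  have horth : ∀ u ∈ P, j u = 0 → ∀ v ∈ P, j (j v) = l • v → B u v = 0 := by
    intro u hu hu0 v hv hv0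
    have h1 := hs u hu (j v) (hj v hv)
    rw [hu0, map_zero, LinearMap.zero_apply, hv0, map_smul, smul_eq_mul] at h1
    have h2 : l * B u v = 0 := by linarith
    exact (mul_eq_zero.1 h2).resolve_left hl.ne'
  have hsum : OMP B P (Sum.elim y z) := by
    refine ⟨?_, ?_, ?_, ?_⟩
    · rintro (i | i)
      · exact (hy1 i).1
      · exact (hz1 i).1
    · rintro (i | i)
      · exact h'.ne i
      · exact hz.ne i
    · rintro (i | i) (k | k) hik
      · exact h'.orth i k (fun h0 => hik (by rw [h0]))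
      · exact horth _ (hy1 i).1 (hy1 i).2 _ (hz1 k).1 (hz1 k).2
      · change B (z i) (y k) = 0
        rw [hB]
        exact horth _ (hy1 k).1 (hy1 k).2 _ (hz1 i).1 (hz1 i).2
      · exact hz.orth i k (fun h0 => hik (by rw [h0]))
    · intro u hu hu0
      have hju := hj u hu
      have hjju := hj _ hju
      set u1 := l⁻¹ • j (j u) with hu1
      have hu1P : u1 ∈ P := P.smul_mem _ hjju
      have hu1' : j (j u1) = l • u1 := by
        rw [hu1, map_smul, map_smul, hc _ hju, smul_smul, smul_smul, inv_mul_cancel₀ hl.ne',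
          mul_inv_cancel₀ hl.ne']
      have hv1P : u - u1 ∈ P := P.sub_mem hu hu1P
      have hv1' : j (u - u1) = 0 := by
        rw [map_sub, hu1, map_smul, hc _ hu, smul_smul, inv_mul_cancel₀ hl.ne', one_smul,
          sub_self]
      have hsp : u = (u - u1) + u1 := by abel
      have e1 : B (u - u1) (u - u1) = 0 := by
        apply h'.max _ ⟨hv1P, hv1'⟩
        intro i
        have h1 := hu0 (Sum.inl i)
        change B u (y i) = 0 at h1
        rw [map_sub, LinearMap.sub_apply, h1, zero_sub, neg_eq_zero, hB]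
        exact horth _ (hy1 i).1 (hy1 i).2 _ hu1P hu1'
      have e2 : B u1 u1 = 0 := by
        apply hz.max _ ((memP1 _).2 ⟨hu1P, hu1'⟩)
        intro i
        have h1 := hu0 (Sum.inr i)
        change B u (z i) = 0 at h1
        rw [hsp, map_add, LinearMap.add_apply,
          horth _ hv1P hv1' _ (hz1 i).1 (hz1 i).2, zero_add] at h1
        exact h1
      have e3 := horth _ hv1P hv1' _ hu1P hu1'
      have e4 : B u1 (u - u1) = 0 := by rw [hB]; exact e3
      have e5 : ∀ a b : M, B (a + b) (a + b) = B a a + B a b + (B b a + B b b) := by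
        intro a b
        rw [map_add B, LinearMap.add_apply, map_add, map_add]
      calc B u u = B ((u - u1) + u1) ((u - u1) + u1) := by rw [← hsp]
        _ = 0 := by rw [e5, e1, e2, e3, e4]; simp
  have hzj : OMP B P1 (fun i => j (z i)) := by
    refine ⟨?_, ?_, ?_, ?_⟩
    · intro i
      refine (memP1 _).2 ⟨hj _ (hz1 i).1, ?_⟩
      rw [hc _ (hz1 i).1]
    · intro i
      rw [hs _ (hz1 i).1 _ (hj _ (hz1 i).1), (hz1 i).2, map_smul, smul_eq_mul, neg_ne_zero]
      exact mul_ne_zero hl.ne' (hz.ne i)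
    · intro i k hik
      rw [hs _ (hz1 i).1 _ (hj _ (hz1 k).1), (hz1 k).2, map_smul, smul_eq_mul,
        hz.orth i k hik, mul_zero, neg_zero]
    · intro u hu hu0
      obtain ⟨huP, hu'⟩ := (memP1 _).1 hu
      have h1 : B (j u) (j u) = 0 := by
        apply hz.max _ ((memP1 _).2 ⟨hj _ huP, by rw [hc _ huP]⟩)
        intro i
        rw [hs _ huP _ (hz1 i).1, hu0 i, neg_zero]
      rw [hs _ huP _ (hj _ huP), hu', map_smul, smul_eq_mul, neg_eq_zero] at h1
      exact (mul_eq_zero.1 h1).resolve_left hl.ne'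
  have s1 : sgn B (fun i => j (z i)) = sgn B z := hzj.sgn_eq hB hz
  have s2 : sgn B (fun i => j (z i)) = -sgn B z := by
    rw [sgn, sgn, ← Finset.sum_neg_distrib]
    apply Finset.sum_congr rfl
    intro i _
    rw [hs _ (hz1 i).1 _ (hj _ (hz1 i).1), (hz1 i).2, map_smul, smul_eq_mul]
    rw [show -(l * B (z i) (z i)) = l * -B (z i) (z i) by ring, sign_mul, sign_pos hl, one_mul,
      Left.sign_neg]
    simp
  have s3 : sgn B z = 0 := by omega
  rw [h.sgn_eq hB hsum, sgn, Fintype.sum_sum_type]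
  change sgn B y + sgn B z = sgn B y
  rw [s3, add_zero]

section KerL

variable {R : Type*} [CommRing R] {V : Type*} [AddCommGroup V] [Module R V]

/-- The common kernel of a list of operators. -/
def kerL (l : List (V →ₗ[R] V)) : Submodule R V :=
  l.foldr (fun j P => P ⊓ LinearMap.ker j) ⊤

lemma mem_kerL {l : List (V →ₗ[R] V)} {x : V} : x ∈ kerL l ↔ ∀ j ∈ l, j x = 0 := by
  induction l with
  | nil => simp [kerL]
  | cons j l ih =>
    have : kerL (j :: l) = kerL l ⊓ LinearMap.ker j := rfl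
    rw [this, Submodule.mem_inf, ih, LinearMap.mem_ker]
    constructor
    · rintro ⟨h1, h2⟩ j' hj'
      rcases List.mem_cons.1 hj' with rfl | h
      · exact h2
      · exact h1 _ h
    · intro h
      exact ⟨fun j' hj' => h j' (List.mem_cons_of_mem _ hj'), h j List.mem_cons_self⟩

end KerL

/-- **The signature of a form with commuting skew operators.** -/
theorem sgn_kerL (hB : ∀ x y, B x y = B y x) {N : ℕ} (hN : FBdd B N)
    (l : List (M →ₗ[ℚ] M)) (hs : ∀ j ∈ l, ∀ x y, B (j x) y = -B x (j y))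
    (hc : ∀ j ∈ l, ∃ c : ℚ, 0 < c ∧ ∀ x, j (j (j x)) = c • j x)
    (hcomm : ∀ j ∈ l, ∀ j' ∈ l, ∀ x, j (j' x) = j' (j x)) {ι : Type*} {κ : Type} [Fintype ι]
    [Fintype κ] {x : ι → M} {y : κ → M} (h : OMP B ⊤ x) (h' : OMP B (kerL l) y) :
    sgn B x = sgn B y := by
  revert h'
  induction l generalizing κ y with
  | nil => exact fun h' => h.sgn_eq hB h'
  | cons j l ih =>
    intro h'
    obtain ⟨m, z, hz⟩ := exists_OMP hB hN (kerL l)
    obtain ⟨c, hc0, hcc⟩ := hc j List.mem_cons_self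
    rw [ih (fun j hj => hs j (List.mem_cons_of_mem _ hj))
      (fun j hj => hc j (List.mem_cons_of_mem _ hj))
      (fun j hj j' hj' => hcomm j (List.mem_cons_of_mem _ hj) j' (List.mem_cons_of_mem _ hj'))
      (y := z) hz]
    refine OMP.step hB hN (P := kerL l) (j := j) ?_
      (fun x _ y _ => hs j List.mem_cons_self x y) hc0 (fun x _ => hcc x) hz h'
    intro x hx
    rw [mem_kerL] at hx ⊢
    intro j' hj'
    rw [hcomm j' (List.mem_cons_of_mem _ hj') j List.mem_cons_self, hx j' hj', map_zero]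

lemma abs_sgn_le {ι : Type*} [Fintype ι] (x : ι → M) : |sgn B x| ≤ Fintype.card ι := by
  rw [sgn]
  refine (Finset.abs_sum_le_sum_abs _ _).trans ?_
  refine (Finset.sum_le_card_nsmul univ _ 1 (fun i _ => ?_)).trans ?_
  · rcases lt_trichotomy (B (x i) (x i)) 0 with h | h | h
    · rw [sign_neg h]; simp
    · rw [h]; simp
    · rw [sign_pos h]; simp
  · simp

/-- **The bound for the signature.** -/
theorem sgn_le (hB : ∀ x y, B x y = B y x) {N : ℕ} (hN : FBdd B N)
    (l : List (M →ₗ[ℚ] M)) (hs : ∀ j ∈ l, ∀ x y, B (j x) y = -B x (j y))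
    (hc : ∀ j ∈ l, ∃ c : ℚ, 0 < c ∧ ∀ x, j (j (j x)) = c • j x)
    (hcomm : ∀ j ∈ l, ∀ j' ∈ l, ∀ x, j (j' x) = j' (j x)) {R : ℕ}
    (hR : ∀ (m : ℕ) (z : Fin m → M), (∀ i, ∀ j ∈ l, j (z i) = 0) →
      (∀ i, B (z i) (z i) ≠ 0) → (∀ i j, i ≠ j → B (z i) (z j) = 0) → m ≤ R)
    {ι : Type*} [Fintype ι] {x : ι → M} (h : OMP B ⊤ x) : |sgn B x| ≤ R := by
  obtain ⟨m, z, hz⟩ := exists_OMP hB hN (kerL l)
  rw [sgn_kerL hB hN l hs hc hcomm h hz]
  refine (abs_sgn_le z).trans ?_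
  rw [Fintype.card_fin]
  exact_mod_cast hR m z (fun i j hj => mem_kerL.1 (hz.mem i) j hj) hz.ne hz.orth

end Pool.Agent.V7H23.ZO
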