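import Pool.Agent.V7H23.ZO.Ops

/-!
# Families of commuting skew operators on products
-/

open CategoryTheory AlgebraicGeometry Finset

universe u v

namespace Pool.Agent.V7H23.ZO

open Pool.Agent.H914 Pool.Agent.H914.VarClass Pool.Agent.H914.VarClass.Obj
  Pool.Agent.H914.WeilCohomology Pool.Agent.H281R3.HT Pool.Agent.W552 Pool.Agent.W539.Ker

variable {k : Type u} [Field k] {𝒱 : VarClass k} {ops : CycleOps 𝒱}
  {W : WeilCohomology.{u, v} ops} {X Y Z : 𝒱.Obj}

/-- The bound for the dimension of the common kernel on a product. -/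
theorem finrank_kerL {D : X.Cycles} {f : Module.End W.K (W.H X)} (S : Sy W X D f)
    {e v : W.H X} (h : HPair W X D f e v) (l : List (Module.End W.K (W.H Y))) :
    Module.finrank W.K (kerL (extOp W (jo W X D f e v) (1 : Module.End W.K (W.H Y)) ::
      l.map (fun j => extOp W (1 : Module.End W.K (W.H X)) j))) ≤
      (Module.finrank W.K (W.H X) - 2) * Module.finrank W.K (kerL l) := by
  obtain ⟨a, ha, hee⟩ := h.ee
  obtain ⟨c, hc, hvv⟩ := h.vv
  have ha' : (a : W.K) ≠ 0 := by exact_mod_cast ha.ne'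
  have hc' : (c : W.K) ≠ 0 := by exact_mod_cast hc.ne'
  have hve : bf W X D f v e = 0 := by rw [sy_AS S h.ase, h.ev]
  set φe : Module.Dual W.K (W.H X) := (bf W X D f).flip e with hφe
  set φv : Module.Dual W.K (W.H X) := (bf W X D f).flip v with hφv
  have ee1 : φe e = (a : W.K) := hee
  have ee2 : φe v = 0 := hve
  have ev1 : φv e = 0 := h.ev
  have ev2 : φv v = -(c : W.K) := hvv
  set L := extOp W (jo W X D f e v) (1 : Module.End W.K (W.H Y)) ::
      l.map (fun j => extOp W (1 : Module.End W.K (W.H X)) j) with hL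
  have hLx : ∀ x : kerL L, extOp W (jo W X D f e v) (1 : Module.End W.K (W.H Y)) (x : W.H _) = 0 ∧
      ∀ j ∈ l, extOp W (1 : Module.End W.K (W.H X)) j (x : W.H (X.prod Y)) = 0 := by
    intro x
    have h1 := mem_kerL.1 x.2
    exact ⟨h1 _ List.mem_cons_self, fun j hj => h1 _ (List.mem_cons_of_mem _
      (List.mem_map.2 ⟨j, hj, rfl⟩))⟩
  -- the contractions with the two forms vanish
  have hcv : ∀ x : kerL L, ctr W X Y φe (x : W.H (X.prod Y)) = 0 ∧
      ctr W X Y φv (x : W.H (X.prod Y)) = 0 := by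
    intro x
    have h1 := (hLx x).1
    rw [jo_ext] at h1
    have h2 := congrArg (ctr W X Y φe) h1
    have h3 := congrArg (ctr W X Y φv) h1
    rw [map_sub, ctr_tmul, ctr_tmul, ee1, ee2, zero_smul, zero_sub, map_zero, neg_eq_zero] at h2
    rw [map_sub, ctr_tmul, ctr_tmul, ev1, ev2, zero_smul, sub_zero, map_zero] at h3
    exact ⟨(smul_eq_zero.1 h3).resolve_left (neg_ne_zero.2 hc'),
      (smul_eq_zero.1 h2).resolve_left ha'⟩
  set Sp : Submodule W.K (Module.Dual W.K (W.H X)) := Submodule.span W.K (Set.range ![φe, φv])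
    with hSp
  have hli : LinearIndependent W.K ![φe, φv] := by
    rw [LinearIndependent.pair_iff]
    intro s t hst
    have h1 := congrArg (fun F => F e) hst
    have h2 := congrArg (fun F => F v) hst
    simp only [LinearMap.add_apply, LinearMap.smul_apply, LinearMap.zero_apply, ee1, ee2, ev1,
      ev2, smul_eq_mul, mul_zero, add_zero, zero_add] at h1 h2
    exact ⟨(mul_eq_zero.1 h1).resolve_right ha',
      (mul_eq_zero.1 h2).resolve_right (neg_ne_zero.2 hc')⟩
  have hfS : Module.finrank W.K Sp = 2 := by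
    rw [hSp, finrank_span_eq_card hli, Fintype.card_fin]
  obtain ⟨C, hC⟩ := Submodule.exists_isCompl Sp
  have hfC : Module.finrank W.K C = Module.finrank W.K (W.H X) - 2 := by
    have h1 := Submodule.finrank_add_eq_of_isCompl hC
    rw [hfS, Subspace.dual_finrank_eq] at h1
    omega
  let Θ : kerL L →ₗ[W.K] C →ₗ[W.K] kerL l :=
    LinearMap.mk₂ W.K (fun (x : kerL L) (φ : C) =>
        (⟨ctr W X Y (φ : Module.Dual W.K (W.H X)) (x : W.H (X.prod Y)), mem_kerL.2 (by
          intro j hj
          rw [← ctr_ext, (hLx x).2 j hj, map_zero])⟩ : kerL l))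
      (fun x x' φ => Subtype.ext (by simp))
      (fun c x φ => Subtype.ext (by simp))
      (fun x φ φ' => Subtype.ext (by simp))
      (fun c x φ => Subtype.ext (by simp))
  have hΘ : ∀ (x : kerL L) (φ : C), ((Θ x φ : kerL l) : W.H Y) =
      ctr W X Y (φ : Module.Dual W.K (W.H X)) (x : W.H (X.prod Y)) := fun _ _ => rfl
  have hinj : Function.Injective Θ := by
    refine (injective_iff_map_eq_zero Θ).2 ?_
    intro x hx
    apply Subtype.ext
    apply eq_zero_of_ctr
    intro φ
    have hφ : φ ∈ Sp ⊔ C := by rw [hC.sup_eq_top]; exact Submodule.mem_top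
    obtain ⟨s, hs, t, ht, rfl⟩ := Submodule.mem_sup.1 hφ
    rw [map_add, LinearMap.add_apply]
    have h1 : ctr W X Y t (x : W.H (X.prod Y)) = 0 := by
      rw [← hΘ x ⟨t, ht⟩, hx]; rfl
    have h2 : ctr W X Y s (x : W.H (X.prod Y)) = 0 := by
      have h3 : Sp ≤ LinearMap.ker ((ctr W X Y).flip (x : W.H (X.prod Y))) := by
        rw [hSp, Submodule.span_le]
        rintro _ ⟨i, rfl⟩
        fin_cases i
        · exact (hcv x).1
        · exact (hcv x).2
      exact h3 hs
    rw [h1, h2, add_zero]
  have h1 := LinearMap.finrank_le_finrank_of_injective hinj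
  have hfree : Module.Free W.K C := Module.Free.of_divisionRing W.K C
  have hfree2 : Module.Free W.K (kerL l) := Module.Free.of_divisionRing W.K (kerL l)
  have hfin : Module.Finite W.K C := FiniteDimensional.finiteDimensional_submodule C
  have h2 := Module.finrank_linearMap W.K W.K C (kerL l)
  rw [hfC] at h2
  exact h1.trans h2.le

/-- A polarized variety with an algebraic lowering operator and a list of commuting skew
operators whose common kernel has dimension at most `N`. -/
def HasOps (W : WeilCohomology.{u, v} ops) (X : 𝒱.Obj) (D : X.Cycles) (N : ℕ) : Prop :=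
  ∃ f : Module.End W.K (W.H X), Fr W X D f ∧ Sy W X D f ∧
    ∃ l : List (Module.End W.K (W.H X)), (∀ j ∈ l, SkewOp W X D f j) ∧
      (∀ j ∈ l, ∀ j' ∈ l, j * j' = j' * j) ∧ Module.finrank W.K (kerL l) ≤ N

lemma HasOps.base {D : X.Cycles} {f : Module.End W.K (W.H X)} (F : Fr W X D f)
    (S : Sy W X D f) : HasOps W X D (Module.finrank W.K (W.H X)) :=
  ⟨f, F, S, [], by simp, by simp, Submodule.finrank_le _⟩

/-- Two linear operators on the product which agree with the form on external products. -/
lemma skew_ext {D : X.Cycles} {f : Module.End W.K (W.H X)} {E : Y.Cycles}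
    {g : Module.End W.K (W.H Y)} (F : Fr W X D f) (G : Fr W Y E g)
    {u u' : Module.End W.K (W.H X)} {t t' : Module.End W.K (W.H Y)}
    (hu : ∀ a b, bf W X D f (u a) b = bf W X D f a (u' b))
    (ht : ∀ a b, bf W Y E g (t a) b = bf W Y E g a (t' b)) (a b : W.H (X.prod Y)) :
    bf W (X.prod Y) (ops.pull (fst X Y) D + ops.pull (snd X Y) E) (extSum W f g)
      (extOp W u t a) b =
    bf W (X.prod Y) (ops.pull (fst X Y) D + ops.pull (snd X Y) E) (extSum W f g) a
      (extOp W u' t' b) := by
  set Δ := ops.pull (fst X Y) D + ops.pull (snd X Y) E with hΔ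
  have h : (bf W (X.prod Y) Δ (extSum W f g)) ∘ₗ extOp W u t =
      (bf W (X.prod Y) Δ (extSum W f g)).compl₂ (extOp W u' t') := by
    apply ext_kunneth_lin
    intro a₁ a₂
    apply ext_kunneth_lin
    intro b₁ b₂
    rw [LinearMap.comp_apply, LinearMap.compl₂_apply, extOp_tmul, extOp_tmul]
    have e1 := F.bf_ext G (u a₁) b₁ (t a₂) b₂
    have e2 := F.bf_ext G a₁ (u' b₁) a₂ (t' b₂)
    rw [H281R3.HT.ext, H281R3.HT.ext] at e1 e2
    rw [e1, e2, hu, ht]
  exact congrArg (fun F => F a b) h

lemma skewOp_left {D : X.Cycles} {f : Module.End W.K (W.H X)} {E : Y.Cycles}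
    {g : Module.End W.K (W.H Y)} (F : Fr W X D f) (G : Fr W Y E g)
    {j : Module.End W.K (W.H X)} (h : SkewOp W X D f j) :
    SkewOp W (X.prod Y) (ops.pull (fst X Y) D + ops.pull (snd X Y) E) (extSum W f g)
      (extOp W j 1) where
  aop := h.aop.ext AOp.one
  skew a b := by
    rw [skew_ext F G (u' := ((-1 : W.K)) • j) (t' := 1) (fun a b => by
      rw [h.skew, LinearMap.smul_apply, map_smul, neg_one_smul]) (fun a b => rfl),
      extOp_smul_left, LinearMap.smul_apply, map_smul, neg_one_smul]
  cub := by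
    obtain ⟨c, hc, hcc⟩ := h.cub
    refine ⟨c, hc, fun a => ?_⟩
    have h1 : extOp W j (1 : Module.End W.K (W.H Y)) * (extOp W j 1 * extOp W j 1) =
        (c : W.K) • extOp W j 1 := by
      rw [extOp_mul, extOp_mul, mul_one, mul_one, ← extOp_smul_left]
      congr 1
      apply LinearMap.ext
      intro x
      exact hcc x
    exact congrArg (fun F => F a) h1
  wt a := by
    have h1 : wt (W.isInternal (X.prod Y)) (X.prod Y).dim ∘ₗ extOp W j 1 =
        extOp W j 1 ∘ₗ wt (W.isInternal (X.prod Y)) (X.prod Y).dim := by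
      rw [wt_prod]
      apply ext_kunneth_lin
      intro a b
      rw [LinearMap.comp_apply, LinearMap.comp_apply, extOp_tmul, extSum_tmul, extSum_tmul,
        map_add, extOp_tmul, extOp_tmul, h.wt]
      rfl
    exact congrArg (fun F => F a) h1

lemma skewOp_right {D : X.Cycles} {f : Module.End W.K (W.H X)} {E : Y.Cycles}
    {g : Module.End W.K (W.H Y)} (F : Fr W X D f) (G : Fr W Y E g)
    {j : Module.End W.K (W.H Y)} (h : SkewOp W Y E g j) :
    SkewOp W (X.prod Y) (ops.pull (fst X Y) D + ops.pull (snd X Y) E) (extSum W f g)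
      (extOp W 1 j) where
  aop := AOp.one.ext h.aop
  skew a b := by
    rw [skew_ext F G (u' := 1) (t' := ((-1 : W.K)) • j) (fun a b => rfl) (fun a b => by
      rw [h.skew, LinearMap.smul_apply, map_smul, neg_one_smul]),
      extOp_smul_right, LinearMap.smul_apply, map_smul, neg_one_smul]
  cub := by
    obtain ⟨c, hc, hcc⟩ := h.cub
    refine ⟨c, hc, fun a => ?_⟩
    have h1 : extOp W (1 : Module.End W.K (W.H X)) j * (extOp W 1 j * extOp W 1 j) =
        (c : W.K) • extOp W 1 j := by
      rw [extOp_mul, extOp_mul, mul_one, mul_one, ← extOp_smul_right]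
      congr 1
      apply LinearMap.ext
      intro x
      exact hcc x
    exact congrArg (fun F => F a) h1
  wt a := by
    have h1 : wt (W.isInternal (X.prod Y)) (X.prod Y).dim ∘ₗ extOp W 1 j =
        extOp W 1 j ∘ₗ wt (W.isInternal (X.prod Y)) (X.prod Y).dim := by
      rw [wt_prod]
      apply ext_kunneth_lin
      intro a b
      rw [LinearMap.comp_apply, LinearMap.comp_apply, extOp_tmul, extSum_tmul, extSum_tmul,
        map_add, extOp_tmul, extOp_tmul, h.wt]
      rfl
    exact congrArg (fun F => F a) h1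

/-- **The step.** -/
theorem HasOps.prod {D : X.Cycles} {E : Y.Cycles} {f : Module.End W.K (W.H X)}
    (F : Fr W X D f) (S : Sy W X D f) {e v : W.H X} (h : HPair W X D f e v) {N : ℕ}
    (hQ : HasOps W Y E N) :
    HasOps W (X.prod Y) (ops.pull (fst X Y) D + ops.pull (snd X Y) E)
      ((Module.finrank W.K (W.H X) - 2) * N) := by
  obtain ⟨g, G, T, l, hl, hc, hN⟩ := hQ
  refine ⟨extSum W f g, F.prod G, S.prod F G T, extOp W (jo W X D f e v)
    (1 : Module.End W.K (W.H Y)) ::
      l.map (fun j => extOp W (1 : Module.End W.K (W.H X)) j), ?_, ?_, ?_⟩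
  · intro j hj
    rcases List.mem_cons.1 hj with rfl | hj
    · exact skewOp_left F G (h.skewOp F S)
    · obtain ⟨t, ht, rfl⟩ := List.mem_map.1 hj
      exact skewOp_right F G (hl t ht)
  · intro j hj j' hj'
    rcases List.mem_cons.1 hj with rfl | hj <;> rcases List.mem_cons.1 hj' with rfl | hj'
    · rfl
    · obtain ⟨t', ht', rfl⟩ := List.mem_map.1 hj'
      rw [extOp_mul, extOp_mul, one_mul, mul_one, one_mul, mul_one]
    · obtain ⟨t, ht, rfl⟩ := List.mem_map.1 hj
      rw [extOp_mul, extOp_mul, one_mul, mul_one, one_mul, mul_one]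
    · obtain ⟨t, ht, rfl⟩ := List.mem_map.1 hj
      obtain ⟨t', ht', rfl⟩ := List.mem_map.1 hj'
      rw [extOp_mul, extOp_mul, hc t ht t' ht']
  · exact (finrank_kerL S h l).trans (Nat.mul_le_mul_left _ hN)

end Pool.Agent.V7H23.ZO
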