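import Pool.Agent.W539.Ker.Fam
import Pool.Agent.V7H23.ZO.Has

/-!
# The bound for the signatures
-/

open CategoryTheory AlgebraicGeometry Finset

universe u v

namespace Pool.Agent.V7H23.ZO

open Pool.Agent.H914 Pool.Agent.H914.VarClass Pool.Agent.H914.VarClass.Obj
  Pool.Agent.H914.WeilCohomology Pool.Agent.H281R3.HT Pool.Agent.W552 Pool.Agent.W539.Ker

variable {k : Type u} [Field k] {𝒱 : VarClass k} {ops : CycleOps 𝒱}
  {W : WeilCohomology.{u, v} ops} {X Y Z : 𝒱.Obj}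

/-- Orthogonal anisotropic vectors are linearly independent. -/
lemma linearIndependent_of_orth {D : X.Cycles} {f : Module.End W.K (W.H X)} {m : ℕ}
    {z : Fin m → W.H X} (h1 : ∀ i, bf W X D f (z i) (z i) ≠ 0)
    (h2 : ∀ i j, i ≠ j → bf W X D f (z i) (z j) = 0) : LinearIndependent W.K z := by
  rw [Fintype.linearIndependent_iff]
  intro g hg i
  have h3 := congrArg (fun a => bf W X D f a (z i)) hg
  simp only [map_sum, map_smul, LinearMap.sum_apply, LinearMap.smul_apply, smul_eq_mul,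
    map_zero, LinearMap.zero_apply] at h3
  rw [Finset.sum_eq_single i] at h3
  · exact (mul_eq_zero.1 h3).resolve_right (h1 i)
  · intro j _ hj
    rw [h2 j i hj, mul_zero]
  · intro h; exact absurd (Finset.mem_univ _) h

/-- **The bound for the signatures.** -/
theorem HasOps.wsum_le {D : X.Cycles} {N : ℕ} (h : HasOps W X D N) (m : ℤ) :
    |wsum X.dim (sig W X D) m| ≤ N := by
  classical
  obtain ⟨f, F, S, l, hl, hcomm, hN⟩ := h
  let _ : Module ℚ (W.H X) := Module.compHom (W.H X) (algebraMap ℚ W.K)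
  have hsm : ∀ (q : ℚ) (x : W.H X), q • x = (q : W.K) • x := fun _ _ => rfl
  obtain ⟨A, hA⟩ : ∃ A : Submodule ℚ (W.H X), ∀ x, x ∈ A ↔
      (AS W X x ∧ wt (W.isInternal X) X.dim x = (m : W.K) • x) :=
    ⟨{ carrier := {x | AS W X x ∧ wt (W.isInternal X) X.dim x = (m : W.K) • x}
       add_mem' := fun {x y} hx hy => ⟨hx.1.add hy.1, by rw [map_add, hx.2, hy.2, smul_add]⟩
       zero_mem' := ⟨AS.zero, by rw [map_zero, smul_zero]⟩
       smul_mem' := fun q x hx => ⟨by rw [hsm]; exact hx.1.smul q, by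
         rw [hsm, map_smul, hx.2, smul_comm]⟩ }, fun x => Iff.rfl⟩
  have hA1 : ∀ x : A, AS W X (x : W.H X) := fun x => ((hA _).1 x.2).1
  have hA2 : ∀ x : A, wt (W.isInternal X) X.dim (x : W.H X) = (m : W.K) • (x : W.H X) :=
    fun x => ((hA _).1 x.2).2
  choose q hq using fun x y : A => F.bf_rat (hA1 x) (hA1 y)
  obtain ⟨B, hBq⟩ : ∃ B : A →ₗ[ℚ] A →ₗ[ℚ] ℚ,
      ∀ x y : A, ((B x y : ℚ) : W.K) = bf W X D f (x : W.H X) (y : W.H X) :=
    ⟨LinearMap.mk₂ ℚ q
    (fun x x' y => by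
      have h1 : ((q (x + x') y : ℚ) : W.K) = ((q x y + q x' y : ℚ) : W.K) := by
        rw [Rat.cast_add, ← hq, ← hq, ← hq, Submodule.coe_add, map_add, LinearMap.add_apply]
      exact_mod_cast h1)
    (fun c x y => by
      have h1 : ((q (c • x) y : ℚ) : W.K) = ((c * q x y : ℚ) : W.K) := by
        rw [Rat.cast_mul, ← hq, ← hq, Submodule.coe_smul, hsm, map_smul, LinearMap.smul_apply,
          smul_eq_mul]
      exact_mod_cast h1)
    (fun x y y' => by
      have h1 : ((q x (y + y') : ℚ) : W.K) = ((q x y + q x y' : ℚ) : W.K) := by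
        rw [Rat.cast_add, ← hq, ← hq, ← hq, Submodule.coe_add, map_add]
      exact_mod_cast h1)
    (fun c x y => by
      have h1 : ((q x (c • y) : ℚ) : W.K) = ((c * q x y : ℚ) : W.K) := by
        rw [Rat.cast_mul, ← hq, ← hq, Submodule.coe_smul, hsm, map_smul, smul_eq_mul]
      exact_mod_cast h1), fun x y => (hq x y).symm⟩
  have hBs : ∀ x y : A, B x y = B y x := by
    intro x y
    have h1 : ((B x y : ℚ) : W.K) = ((B y x : ℚ) : W.K) := by
      rw [hBq, hBq, sy_AS S (hA1 y)]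
    exact_mod_cast h1
  have hne : ∀ {x y : A}, B x y ≠ 0 → bf W X D f (x : W.H X) (y : W.H X) ≠ 0 := by
    intro x y h0 h1
    rw [← hBq] at h1
    exact h0 (by exact_mod_cast h1)
  have heq : ∀ {x y : A}, B x y = 0 → bf W X D f (x : W.H X) (y : W.H X) = 0 := by
    intro x y h0
    rw [← hBq, h0, Rat.cast_zero]
  have hli : ∀ (n : ℕ) (z : Fin n → A), (∀ i, B (z i) (z i) ≠ 0) →
      (∀ i j, i ≠ j → B (z i) (z j) = 0) → LinearIndependent W.K (fun i => (z i : W.H X)) :=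
    fun n z h1 h2 => linearIndependent_of_orth (fun i => hne (h1 i))
      (fun i j hij => heq (h2 i j hij))
  have hbd : FBdd B (Module.finrank W.K (W.H X)) := by
    intro n z h1 h2
    have := (hli n z h1 h2).fintype_card_le_finrank
    rwa [Fintype.card_fin] at this
  obtain ⟨oA, hoA⟩ : ∃ oA : {j // j ∈ l} → (A →ₗ[ℚ] A),
      ∀ (j : {j // j ∈ l}) (x : A), ((oA j x : A) : W.H X) = j.1 (x : W.H X) :=
    ⟨fun j =>
    { toFun := fun x => ⟨j.1 (x : W.H X), (hA _).2 ⟨(hl j.1 j.2).aop.apply (hA1 x), by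
        rw [(hl j.1 j.2).wt, hA2, map_smul]⟩⟩
      map_add' := fun x y => Subtype.ext (by
        change j.1 ((x + y : A) : W.H X) = j.1 (x : W.H X) + j.1 (y : W.H X)
        rw [Submodule.coe_add, map_add])
      map_smul' := fun c x => Subtype.ext (by
        change j.1 ((c • x : A) : W.H X) = c • j.1 (x : W.H X)
        rw [Submodule.coe_smul, hsm, hsm, map_smul]) }, fun _ _ => rfl⟩
  obtain ⟨ι, hι, y, s, hy1, hy2, hs, hyy, hyo, hmax, hsum⟩ := exists_fam F m
  obtain ⟨yA, hyA⟩ : ∃ yA : ι → A, ∀ i, (yA i : W.H X) = y i :=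
    ⟨fun i => ⟨y i, (hA _).2 ⟨hy1 i, hy2 i⟩⟩, fun _ => rfl⟩
  have hyB : ∀ i, B (yA i) (yA i) = s i := by
    intro i
    have h1 : ((B (yA i) (yA i) : ℚ) : W.K) = ((s i : ℚ) : W.K) := by
      rw [hBq, hyA]; exact hyy i
    exact_mod_cast h1
  have hOM : OMP B ⊤ yA := by
    refine ⟨fun _ => Submodule.mem_top, fun i => ?_, fun i j hij => ?_, fun u _ hu => ?_⟩
    · rw [hyB]; exact hs i
    · have h1 : ((B (yA i) (yA j) : ℚ) : W.K) = 0 := by
        rw [hBq, hyA, hyA]; exact hyo i j hij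
      exact_mod_cast h1
    · have h1 : ((B u u : ℚ) : W.K) = 0 := by
        rw [hBq]
        refine hmax _ (hA1 u) (hA2 u) (fun i => ?_)
        rw [← hyA]
        exact heq (hu i)
      exact_mod_cast h1
  have c1 : ∀ j ∈ l.attach.map oA, ∀ x y, B (j x) y = -B x (j y) := by
    intro j hj x y
    obtain ⟨t, -, rfl⟩ := List.mem_map.1 hj
    have h1 : ((B (oA t x) y : ℚ) : W.K) = ((-B x (oA t y) : ℚ) : W.K) := by
      rw [Rat.cast_neg, hBq, hBq, hoA t x, hoA t y, (hl t.1 t.2).skew]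
    exact_mod_cast h1
  have c2 : ∀ j ∈ l.attach.map oA, ∃ c : ℚ, 0 < c ∧ ∀ x, j (j (j x)) = c • j x := by
    intro j hj
    obtain ⟨t, -, rfl⟩ := List.mem_map.1 hj
    obtain ⟨c, hc, hcc⟩ := (hl t.1 t.2).cub
    refine ⟨c, hc, fun x => Subtype.ext ?_⟩
    rw [Submodule.coe_smul, hoA, hoA, hoA, hcc, hsm]
  have c3 : ∀ j ∈ l.attach.map oA, ∀ j' ∈ l.attach.map oA, ∀ x, j (j' x) = j' (j x) := by
    intro j hj j' hj' x
    obtain ⟨t, -, rfl⟩ := List.mem_map.1 hj
    obtain ⟨t', -, rfl⟩ := List.mem_map.1 hj'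
    apply Subtype.ext
    rw [hoA, hoA, hoA, hoA]
    exact congrArg (fun F => F (x : W.H X)) (hcomm t.1 t.2 t'.1 t'.2)
  have c4 : ∀ (n : ℕ) (z : Fin n → A), (∀ i, ∀ j ∈ l.attach.map oA, j (z i) = 0) →
      (∀ i, B (z i) (z i) ≠ 0) → (∀ i j, i ≠ j → B (z i) (z j) = 0) → n ≤ N := by
    intro n z hz h1 h2
    have hz' : ∀ i, (z i : W.H X) ∈ kerL l := by
      intro i
      rw [mem_kerL]
      intro j hj
      have h3 := congrArg Subtype.val (hz i (oA ⟨j, hj⟩) (List.mem_map.2 ⟨⟨j, hj⟩,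
        List.mem_attach _ _, rfl⟩))
      rw [hoA] at h3
      exact h3
    have h3 : LinearIndependent W.K (fun i => (⟨z i, hz' i⟩ : kerL l)) :=
      LinearIndependent.of_comp (kerL l).subtype (hli n z h1 h2)
    have h4 := h3.fintype_card_le_finrank
    rw [Fintype.card_fin] at h4
    exact h4.trans hN
  have hfin := sgn_le hBs hbd (l.attach.map oA) c1 c2 c3 c4 hOM
  have hsgn : sgn B yA = wsum X.dim (sig W X D) m := by
    rw [sgn, ← hsum]
    exact Finset.sum_congr rfl (fun i _ => by rw [hyB])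
  rwa [hsgn] at hfin

end Pool.Agent.V7H23.ZO
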