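import Pool.Agent.V7H23.ZO.Low3

/-!
# The zero-one law
-/

open CategoryTheory AlgebraicGeometry Finset

universe u v

namespace Pool.Agent.V7H23.ZO

open Pool.Agent.H914 Pool.Agent.H914.VarClass Pool.Agent.H914.VarClass.Obj
  Pool.Agent.H914.WeilCohomology Pool.Agent.H281R3.HT Pool.Agent.W552 Pool.Agent.W539.Ker

variable {k : Type u} [Field k] {𝒱 : VarClass k} {ops : CycleOps 𝒱}
  {W : WeilCohomology.{u, v} ops} {X Y Z : 𝒱.Obj} {D : X.Cycles} {f : Module.End W.K (W.H X)}

/-- The standard conjecture of Hodge type modulo numerical equivalence. -/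
def HNum (W : WeilCohomology.{u, v} ops) (X : 𝒱.Obj) (D : X.Cycles) : Prop :=
  ∀ j, 2 * j ≤ X.dim → ∀ z, Primitive W X D j z →
    (∃ w, X.IsCyc (X.dim - j) w ∧ X.V.degCycle (ops.mul z w) ≠ 0) →
    0 < pairing ops X D j z z

section Form

variable (F : Fr W X D f)

include F

lemma deg_cast {j : ℕ} (hj : j ≤ X.dim) {z w : X.Cycles} (hz : X.IsCyc j z)
    (hw : X.IsCyc (X.dim - j) w) :
    ((X.V.degCycle (ops.mul z w) : ℚ) : W.K) = W.tr X (W.cl X z * W.cl X w) := by
  have h1 := ops.mul_mem hz hw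
  rw [show j + (X.dim - j) = X.dim by omega] at h1
  rw [← W.tr_cl h1, W.cl_mul]

/-- No negative primitive cycle: the conjecture modulo numerical equivalence. -/
theorem hnum_of_nonneg (h : ∀ j, 2 * j ≤ X.dim → ∀ z, Primitive W X D j z →
    0 ≤ pairing ops X D j z z) : HNum W X D := by
  intro j hj z hz hw
  obtain ⟨w, hw, hzw⟩ := hw
  refine lt_of_le_of_ne (h j hj z hz) (fun h0 => hzw ?_)
  set L := LinearMap.mulLeft W.K (W.cl X D) with hL
  -- orthogonality to all primitive cycles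
  have horth : ∀ z', Primitive W X D j z' → pairing ops X D j z z' = 0 := by
    intro z' hz'
    let Z : PM W X D j := ⟨z, hz⟩
    let Z' : PM W X D j := ⟨z', hz'⟩
    set B := BP W F.hD j hj with hB
    have hBs : ∀ a b, B a b = B b a := BP_symm F.hD hj
    have hnn : ∀ a : PM W X D j, 0 ≤ B a a := fun a => h j hj _ a.2
    have h1 : B Z Z = 0 := h0.symm
    have h2 : ∀ t : ℚ, 0 ≤ 2 * t * B Z Z' + t * t * B Z' Z' := by
      intro t
      have h3 := hnn (Z + t • Z')
      rw [map_add, map_add, LinearMap.add_apply, LinearMap.add_apply, map_smul, map_smul,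
        LinearMap.smul_apply, LinearMap.smul_apply, map_smul, h1, hBs Z' Z] at h3
      simp only [smul_eq_mul] at h3
      linarith
    change B Z Z' = 0
    by_contra hne
    have hb0 := hnn Z'
    set b := B Z' Z' with hb
    set a := B Z Z' with ha
    have h4 := h2 (-a / (b + 1))
    have hb1 : 0 < b + 1 := by linarith
    have h5 : 2 * (-a / (b + 1)) * a + -a / (b + 1) * (-a / (b + 1)) * b =
        -(a ^ 2 * (b + 2)) / (b + 1) ^ 2 := by
      field_simp
      ring
    rw [h5] at h4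
    have h6 : -(a ^ 2 * (b + 2)) / (b + 1) ^ 2 < 0 := by
      apply div_neg_of_neg_of_pos
      · have : 0 < a ^ 2 := by positivity
        nlinarith
      · positivity
    linarith
  obtain ⟨w', hw', hww⟩ := F.lefschetzA j hj w hw
  obtain ⟨u, hu, hus⟩ := (ap_alg F).decomp_low (mulLeft_isHom F.hD) W_hbd j hj (W.cl X w')
    ⟨w', hw', rfl⟩
  rw [← hL] at hus
  have hzp : (L ^ (X.dim - 2 * j + 1)) (W.cl X z) = 0 := by
    rw [hL, ← cl_divPow]; exact hz.2
  have key : W.tr X (W.cl X z * W.cl X w) = 0 := by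
    rw [← hww, cl_divPow, ← hL, hus, map_sum, Finset.mul_sum, map_sum]
    apply Finset.sum_eq_zero
    intro b hb
    rw [Finset.mem_range] at hb
    obtain ⟨hu1, hu2⟩ := hu b (by omega)
    rcases Nat.eq_zero_or_pos b with rfl | hb0
    · rw [pow_zero, Module.End.one_apply]
      obtain ⟨z0, hz0, hz0'⟩ := hu1
      rw [Nat.sub_zero] at hz0 hu2
      have hprim : Primitive W X D j z0 := ⟨hz0, by rw [cl_divPow, hz0']; exact hu2⟩
      have h1 := pairing_cast (W := W) F.hD hj hz.1 hz0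
      rw [horth z0 hprim, Rat.cast_zero, hz0'] at h1
      exact (mul_eq_zero.1 h1.symm).resolve_left (pow_ne_zero _ (by norm_num))
    · rw [← Module.End.mul_apply, ← pow_add, hL, ← L_pow_self F.hD, ← hL,
        L_pow_gt (n := X.dim) (i := 2 * j) hzp (by omega), zero_mul, map_zero]
  have h2 := deg_cast F (by omega) hz.1 hw
  rw [key] at h2
  exact_mod_cast h2

theorem exists_neg (h : ¬ HNum W X D) :
    ∃ j, 2 * j ≤ X.dim ∧ HasFamily W X D j (-1) 1 := by
  by_contra hno
  push Not at hno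
  apply h
  apply hnum_of_nonneg F
  intro j hj z hz
  by_contra hneg
  exact hno j hj ⟨fun _ => z, fun _ => hz, fun _ => by linarith [not_le.1 hneg],
    fun i i' hii => absurd (Subsingleton.elim i i') hii⟩

/-- The conjecture implies that there are no negative families. -/
theorem idx_neg_eq_zero (h : HNum W X D) {j : ℕ} (hj : 2 * j ≤ X.dim) :
    idx W X D j (-1) = 0 := by
  rw [idx]
  apply Nat.eq_zero_of_le_zero
  apply csSup_le
  · exact ⟨0, Fin.elim0, fun i => i.elim0, fun i => i.elim0, fun i => i.elim0⟩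
  · rintro r ⟨z, hz, hneg, -⟩
    by_contra hr
    have hi : 0 < r := by omega
    have h1 := hneg ⟨0, hi⟩
    have h2 : pairing ops X D j (z ⟨0, hi⟩) (z ⟨0, hi⟩) < 0 := by linarith
    have h3 := h j hj (z ⟨0, hi⟩) (hz _) ⟨divPow ops D (X.dim - 2 * j) (z ⟨0, hi⟩), ?_, ?_⟩
    · linarith
    · have := divPow_mem (ops := ops) F.hD (X.dim - 2 * j) (hz ⟨0, hi⟩).1
      rwa [show j + (X.dim - 2 * j) = X.dim - j by omega] at this
    · intro h4
      rw [pairing, h4, mul_zero] at h2
      exact lt_irrefl _ h2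

end Form

/-- The sum of the indices. -/
noncomputable def sidx (W : WeilCohomology.{u, v} ops) (X : 𝒱.Obj) (D : X.Cycles) (s : ℚ) : ℕ :=
  ∑ j ∈ range (X.dim / 2 + 1), idx W X D j s

lemma total_eq_sidx : total W X D = sidx W X D 1 + sidx W X D (-1) := by
  rw [total, sidx, sidx, ← Finset.sum_add_distrib]
  rfl

lemma sidx_sub (w : ℤ) (hw : w = 0 ∨ w = 1) (hd : (2 : ℤ) ∣ X.dim + w) :
    (sidx W X D 1 : ℤ) - sidx W X D (-1) = wsum X.dim (W539.Ker.sig W X D) w := by
  rw [wsum_full _ _ hw hd, sidx, sidx]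
  push_cast
  rw [← Finset.sum_sub_distrib]
  rfl

/-- The bound. -/
def bd (b m n : ℕ) : ℕ := (b ^ (2 * m + 2) - 2) ^ (n / (2 * m + 2)) * b ^ (n % (2 * m + 2) + 1)

/-- **The upper bounds.** -/
theorem upper {P : Polarized 𝒱} {f : Module.End W.K (W.H P.X)} (F : Fr W P.X P.D f)
    (S : Sy W P.X P.D f) (hp : Pos1 W P.X P.D f) {m : ℕ}
    (h : ¬ HNum W (pw ops P m).X (pw ops P m).D) (n : ℕ) :
    |(sidx W (pw ops P n).X (pw ops P n).D 1 : ℤ) - sidx W (pw ops P n).X (pw ops P n).D (-1)| ≤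
      bd (Module.finrank W.K (W.H P.X)) m n ∧
    ∀ j, 2 * j ≤ (pw ops P n).X.dim →
      |(idx W (pw ops P n).X (pw ops P n).D j 1 : ℤ) - idx W (pw ops P n).X (pw ops P n).D j (-1)| ≤
        2 * bd (Module.finrank W.K (W.H P.X)) m n := by
  obtain ⟨j0, hj0, hneg⟩ := exists_neg (fr_gpw F m) h
  have hw := wsum_pw_le P F S hp hj0 hneg n
  constructor
  · rcases Nat.even_or_odd' (pw ops P n).X.dim with ⟨c, hc | hc⟩
    · rw [sidx_sub 0 (Or.inl rfl) (by omega)]
      exact hw 0
    · rw [sidx_sub 1 (Or.inr rfl) (by omega)]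
      exact hw 1
  · intro j hj
    exact abs_le_of_wsum hw hj

end Pool.Agent.V7H23.ZO
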