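import Pool.Agent.V7H23.ZO.Up

/-!
# Frames give the Lefschetz standard conjecture (after the files V7H2/HT of helper2)
-/

open CategoryTheory AlgebraicGeometry Finset

universe u v

namespace Pool.Agent.V7H23.ZO

open Pool.Agent.H914 Pool.Agent.H914.VarClass Pool.Agent.H914.VarClass.Obj
  Pool.Agent.H914.WeilCohomology Pool.Agent.H281R3.HT Pool.Agent.W552 Pool.Agent.W539.Ker

variable {k : Type u} [Field k] {𝒱 : VarClass k} {ops : CycleOps 𝒱}
  {W : WeilCohomology.{u, v} ops} {X Y Z : 𝒱.Obj}

/-- The hard Lefschetz theorem follows from the existence of the lowering operator. -/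
theorem fr_hardLefschetz {D : X.Cycles} {f : Module.End W.K (W.H X)} (F : Fr W X D f) :
    HardLefschetz W X D := by
  intro i hi
  constructor
  · intro a ha h0
    have h1 : wt (W.isInternal X) X.dim a = -((X.dim - i : ℕ) : W.K) • a := by
      rw [Fr.wt_gr ha, Nat.cast_sub hi]
      congr 1
      ring
    have h2 : f a = 0 := F.sl2.f_eq_zero h1 (by
      rw [pow_succ', Module.End.mul_apply, h0, map_zero])
    have h3 := Sl2.f_pow_e_pow F.sl2 h2 h1 (k := X.dim - i) le_rfl
    rw [h0, map_zero, Nat.sub_self, pow_zero, Module.End.one_apply] at h3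
    refine (smul_eq_zero.1 h3.symm).resolve_left ?_
    have h4 : ((X.dim - i).factorial : W.K) ≠ 0 := by exact_mod_cast Nat.factorial_ne_zero _
    simp [h4]
  · intro b hb
    obtain ⟨z, hz, hzb⟩ := exists_preimage' F.sl2
      (P := fun d x => x = 0 ∨ ∃ c : ℕ, (c : ℤ) = X.dim + d ∧ x ∈ W.gr X c)
      (fun d => Or.inl rfl)
      (by
        rintro d x y (rfl | ⟨c, hc, hx⟩) (rfl | ⟨c', hc', hy⟩)
        · exact Or.inl (add_zero 0)
        · rw [zero_add]; exact Or.inr ⟨c', hc', hy⟩
        · rw [add_zero]; exact Or.inr ⟨c, hc, hx⟩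
        · obtain rfl : c = c' := by omega
          exact Or.inr ⟨c, hc, Submodule.add_mem _ hx hy⟩)
      (by
        rintro q d x (rfl | ⟨c, hc, hx⟩)
        · exact Or.inl (smul_zero _)
        · exact Or.inr ⟨c, hc, Submodule.smul_mem _ _ hx⟩)
      (by
        rintro d x (rfl | ⟨c, hc, hx⟩)
        · exact Or.inl (map_zero _)
        · exact Or.inr ⟨c + 2, by push_cast; omega, F.e_gr hx⟩)
      (by
        rintro d x (rfl | ⟨c, hc, hx⟩)
        · exact Or.inl (map_zero _)
        · have h1 := F.f_gr hx
          by_cases h0 : c < 2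
          · exact Or.inl (h1.2 h0)
          · exact Or.inr ⟨c - 2, by omega, h1.1 (c - 2) (by omega)⟩)
      (by
        rintro d x (rfl | ⟨c, hc, hx⟩)
        · rw [map_zero, smul_zero]
        · rw [Fr.wt_gr hx]
          congr 1
          have : ((c : ℤ) : W.K) = ((X.dim + d : ℤ) : W.K) := by rw [hc]
          push_cast at this ⊢
          linear_combination this)
      (X.dim - i) (y := b) (Or.inr ⟨2 * X.dim - i, by omega, hb⟩)
    refine ⟨z, ?_, hzb⟩
    rcases hz with rfl | ⟨c, hc, hz⟩
    · exact Submodule.zero_mem _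
    · obtain rfl : c = i := by omega
      exact hz

lemma fr_lefStr {D : X.Cycles} {f : Module.End W.K (W.H X)} (F : Fr W X D f) :
    LefStr (W.isInternal X) X.dim (LinearMap.mulLeft W.K (W.cl X D)) f :=
  ⟨mulLeft_isHom F.hD, W_hbd, fr_hardLefschetz F, F.sl2⟩

/-- A homogeneous operator induced by a sum of algebraic classes is induced by an algebraic class of
the right codimension. -/
lemma kop_of_aop {u : Module.End W.K (W.H X)} (hu : AOp W X X u) {r : ℕ}
    (hr : IsHom (W.gr X) (-(2 * r : ℤ)) u) : u ∈ KOp W X X (-r) := by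
  obtain ⟨C, hC, rfl⟩ := hu
  by_cases hrn : r ≤ X.dim
  · have h1 := hC.proj (X.dim - r)
    set C' := proj (W.isInternal (X.prod X)) (2 * (X.dim - r)) C with hC'
    have h2 : W.corr C = W.corr C' := by
      apply gr_ext (W.isInternal X)
      intro i a ha
      have hdiff : ∀ C : W.H (X.prod X), AS W (X.prod X) C → ∀ m : ℕ,
          (m : ℤ) = i - 2 * r → proj (W.isInternal X) m (W.corr C a) =
            W.corr (proj (W.isInternal (X.prod X)) (2 * (X.dim - r)) C) a := by
        intro C hC m hm
        refine AS.ind (p := fun C => proj (W.isInternal X) m (W.corr C a) =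
            W.corr (proj (W.isInternal (X.prod X)) (2 * (X.dim - r)) C) a) ?_ ?_ hC
        · intro j C hj
          have h3 := W.corr_isHom (alg_gr hj) i a (by rw [grZ_natCast]; exact ha)
          by_cases hjr : j = X.dim - r
          · subst hjr
            rw [proj_same _ (alg_gr hj)]
            apply proj_same
            rw [show (i : ℤ) + 2 * (((X.dim - r : ℕ) : ℤ) - X.dim) = (m : ℤ) by omega,
              grZ_natCast] at h3
            exact h3
          · rw [proj_ne _ (alg_gr hj) (by omega), corr_zero, LinearMap.zero_apply]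
            by_cases hneg : (i : ℤ) + 2 * ((j : ℤ) - X.dim) < 0
            · rw [grZ_of_neg hneg] at h3
              rw [(Submodule.mem_bot _).1 h3, map_zero]
            · obtain ⟨l, hl⟩ := Int.eq_ofNat_of_zero_le (not_lt.1 hneg)
              rw [hl] at h3
              have h3' : W.corr C a ∈ grZ (W.gr X) (l : ℤ) := h3
              rw [grZ_natCast] at h3'
              refine proj_ne _ h3' ?_
              intro hlm
              apply hjr
              have h4 : (l : ℤ) = m := by exact_mod_cast hlm
              rw [hm] at h4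
              have h5 : (i : ℤ) + 2 * ((j : ℤ) - X.dim) = l := hl
              omega
        · intro C D hC hD
          rw [corr_add, LinearMap.add_apply, map_add, hC, hD, map_add, corr_add,
            LinearMap.add_apply]
      have h4 := hr i a (by rw [grZ_natCast]; exact ha)
      by_cases hi : (i : ℤ) - 2 * r < 0
      · rw [grZ_of_neg (by omega)] at h4
        rw [(Submodule.mem_bot _).1 h4]
        have h5 := W.corr_isHom (alg_gr h1) i a (by rw [grZ_natCast]; exact ha)
        rw [grZ_of_neg (by omega)] at h5
        exact ((Submodule.mem_bot _).1 h5).symm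
      · obtain ⟨m, hm⟩ := Int.eq_ofNat_of_zero_le (not_lt.1 hi)
        have hm' : (m : ℤ) = i - 2 * r := hm.symm
        rw [hC', ← hdiff C hC m hm']
        rw [show (i : ℤ) + -(2 * (r : ℤ)) = (m : ℤ) by omega, grZ_natCast] at h4
        exact (proj_same _ h4).symm
    rw [h2]
    obtain ⟨z, hz, hz'⟩ := h1
    rw [← hz']
    exact KOp.gen (p := X.dim - r) (by omega) hz
  · have h0 : W.corr C = 0 := by
      refine eq_zero_of_isHom (W.isInternal X) (n := X.dim) (fun i hi => W.gr_eq_bot X i hi)
        (d := -(2 * r : ℤ)) (by omega) hr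
    rw [h0]
    exact Submodule.zero_mem _

/-- The Lefschetz standard conjecture from the algebraicity of the lowering operator. -/
theorem fr_lefschetzB {D : X.Cycles} {f : Module.End W.K (W.H X)} (F : Fr W X D f) :
    LefschetzB W X D := by
  have hHL := fr_hardLefschetz F
  apply lefschetzB_of_inj F.hD hHL
  intro c hc
  have hfh : IsHom (W.gr X) (-2) f := by
    intro i a ha
    by_cases hi : 0 ≤ i
    · lift i to ℕ using hi
      rw [grZ_natCast] at ha
      have h1 := F.f_gr ha
      by_cases h2 : i < 2
      · rw [h1.2 h2]; exact Submodule.zero_mem _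
      · rw [show (i : ℤ) + -2 = ((i - 2 : ℕ) : ℤ) by omega, grZ_natCast]
        exact h1.1 (i - 2) (by omega)
    · rw [grZ_of_neg (by omega)] at ha
      rw [(Submodule.mem_bot _).1 ha, map_zero]
      exact Submodule.zero_mem _
  refine ⟨f ^ c, ?_, ?_⟩
  · apply kop_of_aop (F.aop.pow c)
    have := hfh.pow c
    rwa [show (c : ℤ) * -2 = -(2 * (c : ℤ)) by ring] at this
  · intro a ha h0
    obtain ⟨b, hb, hb'⟩ := (hHL (X.dim - c) (by omega)).2 a
      (by rw [show 2 * X.dim - (X.dim - c) = X.dim + c by omega]; exact ha)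
    rw [show X.dim - (X.dim - c) = c by omega] at hb'
    by_contra ha0
    -- lowest weight theory: `f ^ c` is injective in degree `dim X + c`
    have t := fr_lefStr F
    have key : ∀ i ≤ X.dim, ∀ p ∈ W.gr X i,
        (LinearMap.mulLeft W.K (W.cl X D) ^ (X.dim - i + 1)) p = 0 → True := fun _ _ _ _ _ => trivial
    have h1 : wop W X D f (wop W X D f a) = (-1 : W.K) ^ (X.dim + (X.dim + c)) • a := t.w_sq ha
    have h2 : wop W X D f a ∈ W.gr X (X.dim - c) := by
      have := F.w_mem (i := X.dim + c) (by omega) ha
      rwa [show 2 * X.dim - (X.dim + c) = X.dim - c by omega] at this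
    have h3 : ∀ m : ℕ, ∀ y, wop W X D f ((f ^ m) y) =
        (-1 : W.K) ^ m • (LinearMap.mulLeft W.K (W.cl X D) ^ m) (wop W X D f y) := by
      intro m
      induction m with
      | zero => intro y; simp
      | succ m ih =>
        intro y
        have h4 : ∀ y, wop W X D f (f y) =
            -(LinearMap.mulLeft W.K (W.cl X D)) (wop W X D f y) := by
          intro y
          have := congrArg (fun G => G y) (wey_f F.sl2)
          exact this
        rw [pow_succ' f, Module.End.mul_apply, h4, ih, map_smul, pow_succ' (-1 : W.K), neg_one_mul,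
          neg_smul, pow_succ' (LinearMap.mulLeft W.K (W.cl X D)), Module.End.mul_apply]
    have h5 := h3 c a
    rw [h0, map_zero] at h5
    have h6 : (LinearMap.mulLeft W.K (W.cl X D) ^ c) (wop W X D f a) = 0 := by
      rcases smul_eq_zero.1 h5.symm with h | h
      · exact absurd h (pow_ne_zero _ (by norm_num))
      · exact h
    have h7 : wop W X D f a = 0 := by
      refine (hHL (X.dim - c) (by omega)).1 _ h2 ?_
      rw [show X.dim - (X.dim - c) = c by omega]
      exact h6
    rw [h7, map_zero] at h1
    rcases smul_eq_zero.1 h1.symm with h | h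
    · exact pow_ne_zero _ (by norm_num) h
    · exact ha0 h


/-- A frame gives all the operators. -/
theorem gd_of_fr {D : X.Cycles} {f : Module.End W.K (W.H X)} (F : Fr W X D f) : Gd W X D f := by
  have hp := proj_aop F.hD (fr_hardLefschetz F) (fr_lefschetzB F)
  exact ⟨F, fr_lefStr F, st_aop F hp, par_aop hp⟩

end Pool.Agent.V7H23.ZO
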