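import Mathlib

/-!
# The rank of the Gram matrix of a family of permutation operators
-/

open Finset Matrix

namespace Pool.Agent.V7H23.ZO

/-- The square of the trace of a symmetric matrix. -/
theorem sq_trace_le {n : Type*} [Fintype n] [DecidableEq n] {A : Matrix n n ℝ}
    (hA : A.IsHermitian) : A.trace ^ 2 ≤ A.rank * (A * A).trace := by
  have h1 : (A * A).trace = ∑ i, hA.eigenvalues i ^ 2 := by
    have h2 := hA.spectral_theorem
    rw [Unitary.conjStarAlgAut_apply] at h2
    set U : Matrix n n ℝ := (hA.eigenvectorUnitary : Matrix n n ℝ) with hU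
    have h3 : star U * U = 1 := Unitary.coe_star_mul_self _
    set E : Matrix n n ℝ := diagonal (RCLike.ofReal ∘ hA.eigenvalues) with hE
    have h4 : A * A = U * (E * E) * star U := by
      calc A * A = (U * E * star U) * (U * E * star U) := by rw [← h2]
        _ = U * E * (star U * U) * E * star U := by simp only [mul_assoc]
        _ = U * (E * E) * star U := by rw [h3, mul_one]; simp only [mul_assoc]
    rw [h4, Matrix.trace_mul_comm, ← mul_assoc, h3, one_mul, hE, diagonal_mul_diagonal,
      trace_diagonal]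
    apply Finset.sum_congr rfl
    intro i _
    simp [pow_two]
  have h5 : A.trace = ∑ i, hA.eigenvalues i := by
    have := hA.trace_eq_sum_eigenvalues
    simpa using this
  have h6 : ∑ i, hA.eigenvalues i = ∑ i ∈ univ.filter (fun i => hA.eigenvalues i ≠ 0),
      hA.eigenvalues i := by
    symm
    apply Finset.sum_filter_ne_zero
  rw [h1, h5, h6, hA.rank_eq_card_non_zero_eigs, Fintype.card_subtype]
  refine (sq_sum_le_card_mul_sum_sq).trans ?_
  apply mul_le_mul_of_nonneg_left _ (Nat.cast_nonneg _)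
  apply Finset.sum_le_sum_of_subset_of_nonneg (Finset.filter_subset _ _)
  intro i _ _
  positivity

/-- The rank of the Gram matrix of a group. -/
theorem gram_rank {G : Type*} [Group G] [Fintype G] [DecidableEq G] (t : G → ℝ)
    (hsymm : ∀ g, t g⁻¹ = t g) {κ : Type*} [Fintype κ] (C : Matrix G κ ℝ) (C' : Matrix κ G ℝ)
    (hM : ∀ σ τ, t (σ⁻¹ * τ) = (C * C') σ τ) :
    (Fintype.card G : ℝ) * t 1 ^ 2 ≤ Fintype.card κ * ∑ g, t g ^ 2 := by
  classical
  set M : Matrix G G ℝ := Matrix.of fun σ τ => t (σ⁻¹ * τ) with hMdef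
  have hMC : M = C * C' := by
    ext σ τ
    rw [hMdef, Matrix.of_apply, hM]
  have hherm : M.IsHermitian := by
    ext σ τ
    rw [Matrix.conjTranspose_apply, hMdef, Matrix.of_apply, Matrix.of_apply, star_trivial,
      ← hsymm, _root_.mul_inv_rev, inv_inv]
  have h1 := sq_trace_le hherm
  have h2 : M.rank ≤ Fintype.card κ := by
    rw [hMC]
    exact (Matrix.rank_mul_le_left C C').trans (Matrix.rank_le_card_width C)
  have h3 : M.trace = Fintype.card G * t 1 := by
    rw [Matrix.trace]
    simp [hMdef]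
  have h4 : (M * M).trace = Fintype.card G * ∑ g, t g ^ 2 := by
    rw [Matrix.trace]
    have h5 : ∀ σ : G, (M * M).diag σ = ∑ g, t g ^ 2 := by
      intro σ
      rw [Matrix.diag_apply, Matrix.mul_apply]
      rw [← Equiv.sum_comp (Equiv.mulLeft σ⁻¹) (fun g => t g ^ 2)]
      apply Finset.sum_congr rfl
      intro τ _
      rw [hMdef, Matrix.of_apply, Matrix.of_apply, Equiv.coe_mulLeft, pow_two]
      congr 1
      rw [← hsymm, _root_.mul_inv_rev, inv_inv]
    rw [Finset.sum_congr rfl (fun σ _ => h5 σ), Finset.sum_const, nsmul_eq_mul,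
      Finset.card_univ]
  have hG : (0 : ℝ) < Fintype.card G := by exact_mod_cast Fintype.card_pos
  have h5 : 0 ≤ ∑ g, t g ^ 2 := Finset.sum_nonneg (fun g _ => sq_nonneg _)
  rw [h3, h4] at h1
  have h6 : (M.rank : ℝ) ≤ Fintype.card κ := by exact_mod_cast h2
  have h7 : (Fintype.card G : ℝ) * (Fintype.card G * t 1 ^ 2) ≤
      Fintype.card G * (Fintype.card κ * ∑ g, t g ^ 2) := by
    calc (Fintype.card G : ℝ) * (Fintype.card G * t 1 ^ 2) = (Fintype.card G * t 1) ^ 2 := by ring
      _ ≤ M.rank * (Fintype.card G * ∑ g, t g ^ 2) := h1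
      _ ≤ Fintype.card κ * (Fintype.card G * ∑ g, t g ^ 2) :=
        mul_le_mul_of_nonneg_right h6 (by positivity)
      _ = _ := by ring
  exact le_of_mul_le_mul_left h7 hG

/-- The number of functions which are fixed by a permutation. -/
def nfix (N b : ℕ) (σ : Equiv.Perm (Fin N)) : ℕ :=
  Fintype.card {φ : Fin N → Fin b // φ ∘ ⇑(σ⁻¹) = φ}

/-- **The count of the fixed functions.** -/
theorem sum_nfix_sq (N b : ℕ) :
    ∑ σ : Equiv.Perm (Fin N), nfix N b σ ^ 2 ≤ N.factorial * (N + 1) ^ (b ^ 2) := by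
  classical
  let act : MulAction (Equiv.Perm (Fin N)) (Fin N → Fin b × Fin b) := arrowAction
  have hact : ∀ (σ : Equiv.Perm (Fin N)) (χ : Fin N → Fin b × Fin b), σ • χ = χ ∘ ⇑(σ⁻¹) :=
    fun _ _ => rfl
  let Ω := Quotient (MulAction.orbitRel (Equiv.Perm (Fin N)) (Fin N → Fin b × Fin b))
  have hB := MulAction.sum_card_fixedBy_eq_card_orbits_mul_card_group (Equiv.Perm (Fin N))
    (Fin N → Fin b × Fin b)
  have h1 : ∀ σ : Equiv.Perm (Fin N), nfix N b σ ^ 2 =
      Fintype.card (MulAction.fixedBy (Fin N → Fin b × Fin b) σ) := by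
    intro σ
    rw [nfix, pow_two, ← Fintype.card_prod]
    apply Fintype.card_congr
    refine ⟨fun p => ⟨fun i => (p.1.1 i, p.2.1 i), ?_⟩, fun χ =>
      (⟨fun i => (χ.1 i).1, ?_⟩, ⟨fun i => (χ.1 i).2, ?_⟩), fun p => rfl, fun χ => rfl⟩
    · rw [MulAction.mem_fixedBy, hact]
      funext i
      exact Prod.ext (congrFun p.1.2 i) (congrFun p.2.2 i)
    · funext i
      have h2 := χ.2
      rw [MulAction.mem_fixedBy, hact] at h2
      exact congrArg Prod.fst (congrFun h2 i)
    · funext i
      have h2 := χ.2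
      rw [MulAction.mem_fixedBy, hact] at h2
      exact congrArg Prod.snd (congrFun h2 i)
  rw [Finset.sum_congr rfl (fun σ _ => h1 σ), hB, Fintype.card_perm, Fintype.card_fin, mul_comm]
  apply Nat.mul_le_mul_left
  -- the orbits
  let cnt : (Fin N → Fin b × Fin b) → (Fin b × Fin b → Fin (N + 1)) := fun χ y =>
    ⟨Fintype.card {i // χ i = y}, by
      have := Fintype.card_subtype_le (fun i : Fin N => χ i = y)
      rw [Fintype.card_fin] at this
      omega⟩
  have hcnt : ∀ χ χ', cnt χ = cnt χ' → ∃ σ : Equiv.Perm (Fin N), σ • χ' = χ := by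
    intro χ χ' h
    have h2 : ∀ y, Nonempty ({i // χ' i = y} ≃ {i // χ i = y}) := by
      intro y
      have h3 := congrArg Fin.val (congrFun h y)
      exact ⟨Fintype.equivOfCardEq h3.symm⟩
    choose e he using fun y => (⟨(h2 y).some, trivial⟩ :
      ∃ _ : ({i // χ' i = y} ≃ {i // χ i = y}), True)
    refine ⟨Equiv.ofFiberEquiv e, ?_⟩
    rw [hact]
    funext i
    have h4 := Equiv.ofFiberEquiv_map e ((Equiv.ofFiberEquiv e).symm i)
    rw [Equiv.apply_symm_apply] at h4
    exact h4.symm
  have hinv : ∀ (σ : Equiv.Perm (Fin N)) χ, cnt (σ • χ) = cnt χ := by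
    intro σ χ
    funext y
    apply Fin.ext
    change Fintype.card {i // (σ • χ) i = y} = Fintype.card {i // χ i = y}
    apply Fintype.card_congr
    refine ⟨fun i => ⟨σ⁻¹ i.1, i.2⟩, fun i => ⟨σ i.1, ?_⟩, fun i => ?_, fun i => ?_⟩
    · change χ (σ.symm (σ i.1)) = y
      rw [Equiv.symm_apply_apply]; exact i.2
    · exact Subtype.ext (σ.apply_symm_apply i.1)
    · exact Subtype.ext (σ.symm_apply_apply i.1)
  let F : Ω → (Fin b × Fin b → Fin (N + 1)) := Quotient.lift cnt (by
    rintro χ χ' ⟨σ, rfl⟩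
    exact hinv σ χ')
  have hF : Function.Injective F := by
    intro a a'
    induction a using Quotient.inductionOn with
    | h χ =>
      induction a' using Quotient.inductionOn with
      | h χ' =>
        intro h
        apply Quotient.sound
        obtain ⟨σ, hσ⟩ := hcnt χ χ' h
        exact ⟨σ, hσ⟩
  refine (Fintype.card_le_of_injective F hF).trans ?_
  rw [Fintype.card_fun, Fintype.card_prod, Fintype.card_fin, Fintype.card_fin, pow_two]

end Pool.Agent.V7H23.ZO
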