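import Pool.Agent.V7H23.ZO.Low

/-!
# The lower bound for the number of the algebraic classes on the powers
-/

open CategoryTheory AlgebraicGeometry Finset

universe u v

namespace Pool.Agent.V7H23.ZO

open Pool.Agent.H914 Pool.Agent.H914.VarClass Pool.Agent.H914.VarClass.Obj
  Pool.Agent.H914.WeilCohomology Pool.Agent.H281R3.HT Pool.Agent.W552 Pool.Agent.W539.Ker

variable {k : Type u} [Field k] {𝒱 : VarClass k} {ops : CycleOps 𝒱}
  {W : WeilCohomology.{u, v} ops} {X Y Z : 𝒱.Obj} {D : X.Cycles} {f : Module.End W.K (W.H X)}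

/-- The number of all primitive classes modulo numerical equivalence. -/
noncomputable def total (W : WeilCohomology.{u, v} ops) (X : 𝒱.Obj) (D : X.Cycles) : ℕ :=
  ∑ n ∈ range (X.dim / 2 + 1), tot W X D n

lemma wsum_full (d : ℕ) (σ : ℕ → ℤ) {m : ℤ} (hm : m = 0 ∨ m = 1) (hd : (2 : ℤ) ∣ d + m) :
    wsum d σ m = ∑ n ∈ range (d / 2 + 1), σ n := by
  rw [wsum]
  apply Finset.sum_congr rfl
  intro n hn
  rw [Finset.mem_range] at hn
  rw [if_pos]
  refine ⟨?_, hd⟩
  rcases hm with rfl | rfl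
  · rw [abs_zero]; omega
  · rw [abs_one]; omega

/-- The form in terms of a maximal orthogonal family. -/
lemma bf_expand (F : Fr W X D f) (S : Sy W X D f) {m : ℤ} {ι : Type} [Fintype ι]
    {y : ι → W.H X} {s : ι → ℚ} (hy1 : ∀ i, AS W X (y i))
    (hy2 : ∀ i, wt (W.isInternal X) X.dim (y i) = (m : W.K) • y i) (hs : ∀ i, s i ≠ 0)
    (hyy : ∀ i, bf W X D f (y i) (y i) = (s i : W.K))
    (hyo : ∀ i j, i ≠ j → bf W X D f (y i) (y j) = 0)
    (hmax : ∀ u, AS W X u → wt (W.isInternal X) X.dim u = (m : W.K) • u →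
      (∀ i, bf W X D f u (y i) = 0) → bf W X D f u u = 0)
    {u u' : W.H X} (hu : AS W X u) (hu' : AS W X u')
    (hw : wt (W.isInternal X) X.dim u = (m : W.K) • u)
    (hw' : wt (W.isInternal X) X.dim u' = (m : W.K) • u')
    {c c' : ι → ℚ} (hc : ∀ i, bf W X D f u (y i) = (c i : W.K))
    (hc' : ∀ i, bf W X D f u' (y i) = (c' i : W.K)) :
    bf W X D f u u' = ((∑ i, c i * (c' i / s i) : ℚ) : W.K) := by
  classical
  have hsK : ∀ i, ((s i : ℚ) : W.K) ≠ 0 := fun i => by exact_mod_cast hs i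
  -- the projections
  have proj : ∀ (w : W.H X) (e : ι → ℚ), AS W X w →
      wt (W.isInternal X) X.dim w = (m : W.K) • w → (∀ i, bf W X D f w (y i) = (e i : W.K)) →
      ∃ p, p = ∑ i, ((e i / s i : ℚ) : W.K) • y i ∧ AS W X p ∧ AS W X (w - p) ∧
        wt (W.isInternal X) X.dim (w - p) = (m : W.K) • (w - p) ∧
        ∀ i, bf W X D f (w - p) (y i) = 0 := by
    intro w e hw1 hw2 he
    refine ⟨_, rfl, AS.ratSub.sum _ (fun i _ => AS.smul _ (hy1 i)), ?_, ?_, ?_⟩
    · exact AS.ratSub.sub hw1 (AS.ratSub.sum _ (fun i _ => AS.smul _ (hy1 i)))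
    · rw [map_sub, map_sum, hw2, smul_sub, Finset.smul_sum]
      congr 1
      apply Finset.sum_congr rfl
      intro i _
      rw [map_smul, hy2, smul_comm]
    · intro i
      rw [map_sub, LinearMap.sub_apply, he, map_sum, LinearMap.sum_apply, Finset.sum_eq_single i]
      · rw [map_smul, LinearMap.smul_apply, hyy, smul_eq_mul]
        push_cast
        rw [div_mul_cancel₀ _ (hsK i), sub_self]
      · intro j _ hj
        rw [map_smul, LinearMap.smul_apply, hyo j i hj, smul_zero]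
      · intro h; exact absurd (Finset.mem_univ _) h
  obtain ⟨p, hp, hpA, hpA', hpw, hpy⟩ := proj u c hu hw hc
  obtain ⟨p', hp', hpA2, hpA2', hpw', hpy'⟩ := proj u' c' hu' hw' hc'
  have e1 : bf W X D f (u - p) (u' - p') = 0 := by
    have h1 := hmax _ hpA' hpw hpy
    have h2 := hmax _ hpA2' hpw' hpy'
    have h3 := hmax ((u - p) + (u' - p')) (hpA'.add hpA2') (by rw [map_add, hpw, hpw', smul_add])
      (fun i => by rw [map_add, LinearMap.add_apply, hpy, hpy', add_zero])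
    rw [map_add, map_add, LinearMap.add_apply, LinearMap.add_apply, h1, h2,
      sy_AS S hpA' (u' - p')] at h3
    have h4 : (2 : W.K) * bf W X D f (u - p) (u' - p') = 0 := by linear_combination h3
    exact (mul_eq_zero.1 h4).resolve_left two_ne_zero
  have e2 : bf W X D f (u - p) p' = 0 := by
    rw [hp', map_sum]
    apply Finset.sum_eq_zero
    intro i _
    rw [map_smul, hpy, smul_zero]
  have e3 : bf W X D f p u' = ((∑ i, c i * (c' i / s i) : ℚ) : W.K) := by
    rw [hp, map_sum, LinearMap.sum_apply]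
    push_cast
    apply Finset.sum_congr rfl
    intro i _
    rw [map_smul, LinearMap.smul_apply, ← sy_AS S (hy1 i), hc', smul_eq_mul]
    push_cast
    ring
  calc bf W X D f u u' = bf W X D f ((u - p) + p) u' := by rw [sub_add_cancel]
    _ = bf W X D f (u - p) u' + bf W X D f p u' := by rw [map_add, LinearMap.add_apply]
    _ = bf W X D f (u - p) ((u' - p') + p') + bf W X D f p u' := by rw [sub_add_cancel]
    _ = _ := by rw [map_add, e1, e2, e3, zero_add, zero_add]

section Pw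

variable {P : Polarized 𝒱} {g : Module.End W.K (W.H P.X)}

/-- **The lower bound for the number of classes on the square of a power.** -/
theorem total_sq (F : Fr W P.X P.D g) (S : Sy W P.X P.D g) (n : ℕ) :
    Module.finrank W.K (W.H P.X) ^ (2 * (n + 1)) ≤
      (n + 2) ^ (Module.finrank W.K (W.H P.X) ^ 2) *
        total W ((pw ops P n).prod ops (pw ops P n)).X ((pw ops P n).prod ops (pw ops P n)).D := by
  classical
  set b := Module.finrank W.K (W.H P.X) with hb
  set T := (pw ops P n).X with hT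
  set E := (pw ops P n).D with hE
  set h := gpw W P g n with hh
  have FT : Fr W T E h := fr_gpw F n
  have ST : Sy W T E h := sy_gpw F S n
  have GT : Gd W T E h := gd_of_fr FT
  set Δ := ops.pull (fst T T) E + ops.pull (snd T T) E with hΔ
  have FF : Fr W (T.prod T) Δ (extSum W h h) := FT.prod FT
  have SS : Sy W (T.prod T) Δ (extSum W h h) := ST.prod FT FT ST
  choose x hxA hx using fun σ : Equiv.Perm (Fin (n + 1)) => uo_aop (W := W) (P := P) n σ
  have hxw : ∀ σ, wt (W.isInternal (T.prod T)) (T.prod T).dim (x σ) =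
      ((0 : ℤ) : W.K) • x σ := by
    intro σ
    rw [← hm_corr, hx]
    exact uo_wt n σ
  choose t ht ht' using fun σ : Equiv.Perm (Fin (n + 1)) => trace_uo (W := W) (P := P) n σ
  have hbf : ∀ σ τ, bf W (T.prod T) Δ (extSum W h h) (x σ) (x τ) = (t (σ⁻¹ * τ) : W.K) := by
    intro σ τ
    rw [← GT.trace_corr GT (hxA τ) (hxA σ) (u' := uo W P n σ⁻¹) (by
      intro a c
      rw [hx]
      exact uo_adj F n σ a c), hx, ← ht, ← uo_mul]
    rfl
  obtain ⟨ι, hι, y, s, hy1, hy2, hs, hyy, hyo, hmax, hcard⟩ := exists_famc FF 0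
  choose c hc using fun (σ : Equiv.Perm (Fin (n + 1))) (i : ι) => FF.bf_rat (hxA σ) (hy1 i)
  have hM : ∀ σ τ, ((t (σ⁻¹ * τ) : ℤ) : ℝ) =
      ((Matrix.of fun (σ : Equiv.Perm (Fin (n + 1))) (i : ι) => ((c σ i : ℚ) : ℝ)) *
        (Matrix.of fun (i : ι) (τ : Equiv.Perm (Fin (n + 1))) => ((c τ i / s i : ℚ) : ℝ)) :
        Matrix _ _ ℝ) σ τ := by
    intro σ τ
    have h1 := bf_expand FF SS hy1 hy2 hs hyy hyo hmax (hxA σ) (hxA τ) (hxw σ) (hxw τ)
      (hc σ) (hc τ)
    rw [hbf] at h1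
    have h2 : ((t (σ⁻¹ * τ) : ℤ) : ℚ) = ∑ i, c σ i * (c τ i / s i) := by
      have h3 : (((t (σ⁻¹ * τ) : ℤ) : ℚ) : W.K) = ((∑ i, c σ i * (c τ i / s i) : ℚ) : W.K) := by
        rw [← h1, Rat.cast_intCast]
      exact_mod_cast h3
    rw [Matrix.mul_apply]
    have h3 := congrArg (fun q : ℚ => (q : ℝ)) h2
    push_cast at h3
    rw [h3]
    apply Finset.sum_congr rfl
    intro i _
    rw [Matrix.of_apply, Matrix.of_apply]
    push_cast
    rfl
  have hsymm : ∀ σ, t σ⁻¹ = t σ := by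
    intro σ
    have h1 := hbf 1 σ
    have h2 := hbf σ 1
    rw [inv_one, one_mul] at h1
    rw [mul_one] at h2
    rw [sy_AS SS (hxA σ), h2] at h1
    exact_mod_cast h1
  have hr := gram_rank (fun σ => ((t σ : ℤ) : ℝ)) (fun σ => by rw [hsymm]) _ _ hM
  have ht1 : t 1 = (b : ℤ) ^ (n + 1) := by
    have h1 := ht 1
    rw [trace_uo_one] at h1
    have h2 : ((b ^ (n + 1) : ℕ) : W.K) = ((t 1 : ℤ) : W.K) := h1
    have h3 : (((b ^ (n + 1) : ℕ) : ℤ) : W.K) = ((t 1 : ℤ) : W.K) := by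
      rw [← h2]; push_cast; rfl
    have h4 : ((b ^ (n + 1) : ℕ) : ℤ) = t 1 := by exact_mod_cast h3
    rw [← h4]; push_cast; rfl
  have hsum : ∑ σ, ((t σ : ℤ) : ℝ) ^ 2 ≤ ((n + 1).factorial * (n + 2) ^ (b ^ 2) : ℕ) := by
    have h1 := sum_nfix_sq (n + 1) b
    have h2 : ∑ σ, ((t σ : ℤ) : ℝ) ^ 2 ≤
        ∑ σ : Equiv.Perm (Fin (n + 1)), ((nfix (n + 1) b σ : ℕ) : ℝ) ^ 2 := by
      apply Finset.sum_le_sum
      intro σ _
      have h3 : |((t σ : ℤ) : ℝ)| ≤ ((nfix (n + 1) b σ : ℕ) : ℝ) := by exact_mod_cast ht' σ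
      rw [← sq_abs]
      exact pow_le_pow_left₀ (abs_nonneg _) h3 2
    refine h2.trans ?_
    exact_mod_cast h1
  have hcard' : Fintype.card ι = total W (T.prod T) Δ := by
    rw [wsum_full _ _ (Or.inl rfl) (by
      rw [dim_prod]; push_cast; omega)] at hcard
    rw [total]
    exact_mod_cast hcard
  rw [Fintype.card_perm, Fintype.card_fin, ht1] at hr
  have h5 : ((n + 1).factorial : ℝ) * ((b : ℝ) ^ (2 * (n + 1))) ≤
      (n + 1).factorial * ((n + 2) ^ (b ^ 2) * Fintype.card ι) := by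
    calc ((n + 1).factorial : ℝ) * ((b : ℝ) ^ (2 * (n + 1))) =
        ((n + 1).factorial : ℝ) * (((b : ℤ) ^ (n + 1) : ℤ) : ℝ) ^ 2 := by
          push_cast; ring
      _ ≤ Fintype.card ι * ∑ σ, ((t σ : ℤ) : ℝ) ^ 2 := hr
      _ ≤ Fintype.card ι * ((n + 1).factorial * (n + 2) ^ (b ^ 2) : ℕ) :=
        mul_le_mul_of_nonneg_left hsum (Nat.cast_nonneg _)
      _ = _ := by push_cast; ring
  have h6 : (0 : ℝ) < (n + 1).factorial := by exact_mod_cast Nat.factorial_pos _
  have h7 := le_of_mul_le_mul_left h5 h6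
  rw [hcard'] at h7
  exact_mod_cast h7

end Pw

end Pool.Agent.V7H23.ZO
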