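import Pool.Agent.V7H23.ZO.Low2

/-!
# The lower bound for the number of the algebraic classes on all powers
-/

open CategoryTheory AlgebraicGeometry Finset

universe u v

namespace Pool.Agent.V7H23.ZO

open Pool.Agent.H914 Pool.Agent.H914.VarClass Pool.Agent.H914.VarClass.Obj
  Pool.Agent.H914.WeilCohomology Pool.Agent.H281R3.HT Pool.Agent.W552 Pool.Agent.W539.Ker

variable {k : Type u} [Field k] {𝒱 : VarClass k} {ops : CycleOps 𝒱}
  {W : WeilCohomology.{u, v} ops} {X Y Z : 𝒱.Obj} {D : X.Cycles} {f : Module.End W.K (W.H X)}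

lemma PEq.total_eq {P Q : Polarized 𝒱} (h : PEq W P Q) (hP : P.X.IsCyc 1 P.D)
    (hQ : Q.X.IsCyc 1 Q.D) : total W P.X P.D = total W Q.X Q.D := by
  rw [total, total, ← h.1.1]
  apply Finset.sum_congr rfl
  intro n hn
  rw [Finset.mem_range] at hn
  rw [tot, tot, h.idx_eq hP hQ (by omega), h.idx_eq hP hQ (by omega)]

lemma pairing_fund_pos (F : Fr W X D f) (hp : Pos1 W X D f) :
    0 < pairing ops X D 0 X.V.fundCycle X.V.fundCycle := by
  obtain ⟨a, ha, h11⟩ := hp
  have h1 := bf_one F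
  rw [h11] at h1
  have h2 : a = (X.dim.factorial : ℚ)⁻¹ * pairing ops X D 0 X.V.fundCycle X.V.fundCycle := by
    exact_mod_cast h1
  rw [h2] at ha
  exact (pos_iff_pos_of_mul_pos ha).1 (by positivity)

lemma total_pos (F : Fr W X D f) (hp : Pos1 W X D f) : 1 ≤ total W X D := by
  have h1 : 1 ≤ idx W X D 0 1 := by
    apply le_csSup (bddAbove_family W F.hD (by omega)).1
    refine ⟨fun _ => X.V.fundCycle, fun _ => prim_fund F, fun _ => ?_, fun i j hij => ?_⟩
    · rw [one_mul]; exact pairing_fund_pos F hp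
    · exact absurd (Subsingleton.elim i j) hij
  have h2 : tot W X D 0 ≤ total W X D := by
    rw [total]
    exact Finset.single_le_sum (f := fun n => tot W X D n) (fun _ _ => Nat.zero_le _)
      (Finset.mem_range.2 (by omega))
  have h3 : idx W X D 0 1 ≤ tot W X D 0 := Nat.le_add_right _ _
  omega

/-- The number of classes does not decrease on products. -/
theorem total_prod_ge (F : Fr W X D f) (S : Sy W X D f) (hp : Pos1 W X D f) {E : Z.Cycles}
    {g : Module.End W.K (W.H Z)} (G : Fr W Z E g) (T : Sy W Z E g) (hZ : 2 ∣ Z.dim) :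
    total W Z E ≤ total W (X.prod Z) (ops.pull (fst X Z) D + ops.pull (snd X Z) E) := by
  classical
  set L := LinearMap.mulLeft W.K (W.cl X D) with hL
  set Δ := ops.pull (fst X Z) D + ops.pull (snd X Z) E with hΔ
  have FF : Fr W (X.prod Z) Δ (extSum W f g) := F.prod G
  have SS : Sy W (X.prod Z) Δ (extSum W f g) := S.prod F G T
  have hf := prim_fund F
  have hpf := pairing_fund_pos F hp
  set j := (X.dim + 1) / 2 with hj
  set w : ℤ := 2 * j - X.dim with hw
  have hw01 : w = 0 ∨ w = 1 := by omega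
  have hu1 : (L ^ j) (1 : W.H X) = (L ^ j) (W.cl X X.V.fundCycle) := by rw [W.cl_fund]
  obtain ⟨p, hp0, huu⟩ : ∃ p : ℚ, 0 < p ∧ bf W X D f ((L ^ j) 1) ((L ^ j) 1) = p := by
    have h1 := bf_same F (n := 0) (by omega) hf hf (j := j) (by omega)
    rw [hu1]
    exact ⟨_, by positivity, h1⟩
  have huA : AS W X ((L ^ j) 1) := by
    rw [hu1, ← cl_divPow]
    exact AS.of ⟨_, divPow_mem F.hD j X.V.fundCycle_mem, rfl⟩
  have hug : (L ^ j) (1 : W.H X) ∈ W.gr X (2 * j) := by
    have := pow_L_mem (mulLeft_isHom F.hD) (W.one_mem X) j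
    rwa [zero_add] at this
  have huw : wt (W.isInternal X) X.dim ((L ^ j) 1) = (w : W.K) • (L ^ j) 1 := by
    rw [Fr.wt_gr hug, hw]
    congr 1
    push_cast
    ring
  obtain ⟨ι, hι, y, s, hy1, hy2, hs, hyy, hyo, -, hcard⟩ := exists_famc G 0
  obtain ⟨ι', hι', y', s', hy1', hy2', hs', hyy', hyo', hmax', hcard'⟩ := exists_famc FF w
  have hc1 : Fintype.card ι = total W Z E := by
    rw [wsum_full _ _ (Or.inl rfl) (by omega)] at hcard
    rw [total]
    exact_mod_cast hcard
  have hc2 : Fintype.card ι' = total W (X.prod Z) Δ := by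
    rw [wsum_full _ _ hw01 (by rw [dim_prod]; push_cast; omega)] at hcard'
    rw [total]
    exact_mod_cast hcard'
  have hz1 : ∀ i, AS W (X.prod Z) (H281R3.HT.ext W ((L ^ j) 1) (y i)) :=
    fun i => huA.ext (hy1 i)
  have hz2 : ∀ i, wt (W.isInternal (X.prod Z)) (X.prod Z).dim
      (H281R3.HT.ext W ((L ^ j) 1) (y i)) = (w : W.K) • H281R3.HT.ext W ((L ^ j) 1) (y i) := by
    intro i
    rw [wt_prod, H281R3.HT.ext, extSum_tmul, huw, hy2, map_smul, map_smul, smul_mul_assoc]
    simp
  choose c hc using fun (i : ι) (l : ι') => FF.bf_rat (hz1 i) (hy1' l)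
  have hM : Matrix.diagonal (fun i => p * s i) =
      (Matrix.of fun (i : ι) (l : ι') => c i l) *
        (Matrix.of fun (l : ι') (i : ι) => c i l / s' l) := by
    ext i i'
    have h1 := bf_expand FF SS hy1' hy2' hs' hyy' hyo' hmax' (hz1 i) (hz1 i') (hz2 i) (hz2 i')
      (hc i) (hc i')
    rw [F.bf_ext G, huu] at h1
    rw [Matrix.mul_apply]
    have h2 : ∑ l, c i l * (c i' l / s' l) = ∑ l, (Matrix.of fun (i : ι) (l : ι') => c i l) i l *
        (Matrix.of fun (l : ι') (i : ι) => c i l / s' l) l i' := rfl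
    rw [← h2]
    by_cases hii : i = i'
    · subst hii
      rw [hyy] at h1
      rw [Matrix.diagonal_apply_eq]
      exact_mod_cast h1
    · rw [hyo _ _ hii, mul_zero] at h1
      rw [Matrix.diagonal_apply_ne _ hii]
      exact_mod_cast h1
  have hrank : (Matrix.diagonal (fun i => p * s i)).rank = Fintype.card ι := by
    rw [Matrix.rank_diagonal]
    apply Fintype.card_congr
    exact Equiv.subtypeUnivEquiv (fun i => mul_ne_zero hp0.ne' (hs i))
  rw [← hc1, ← hc2, ← hrank, hM]
  exact (Matrix.rank_mul_le_left _ _).trans (Matrix.rank_le_card_width _)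

/-- **The lower bound for the number of classes on the powers.** -/
theorem total_pw {P : Polarized 𝒱} {g : Module.End W.K (W.H P.X)} (F : Fr W P.X P.D g)
    (S : Sy W P.X P.D g) (hp : Pos1 W P.X P.D g) (N : ℕ) :
    Module.finrank W.K (W.H P.X) ^ N ≤
      (N + 1) ^ (Module.finrank W.K (W.H P.X) ^ 2) *
        total W (pw ops P N).X (pw ops P N).D := by
  set b := Module.finrank W.K (W.H P.X) with hb
  have hodd : ∀ n, b ^ (2 * (n + 1)) ≤
      (n + 2) ^ (b ^ 2) * total W (pw ops P (2 * n + 1)).X (pw ops P (2 * n + 1)).D := by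
    intro n
    have h1 := total_sq F S n
    have h2 := pw_split (W := W) P n n
    have h3 := h2.total_eq (fr_gpw F _).hD ((fr_gpw F n).prod (fr_gpw F n)).hD
    rw [show n + n + 1 = 2 * n + 1 by ring] at h3
    rw [h3]
    exact h1
  rcases Nat.even_or_odd' N with ⟨c, rfl | rfl⟩
  · rcases Nat.eq_zero_or_pos c with rfl | hc
    · have h1 := total_pos (fr_gpw F 0) (pos1_gpw F hp 0)
      rw [mul_zero, pow_zero, zero_add, one_pow, one_mul]
      exact h1
    · obtain ⟨n, rfl⟩ : ∃ n, c = n + 1 := ⟨c - 1, by omega⟩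
      have h1 := hodd n
      have hev : 2 ∣ (pw ops P (2 * n + 1)).X.dim := by
        rw [dim_pw]
        exact Dvd.dvd.mul_right (by omega) _
      have h2 : total W (pw ops P (2 * n + 1)).X (pw ops P (2 * n + 1)).D ≤
          total W (pw ops P (2 * n + 1 + 1)).X (pw ops P (2 * n + 1 + 1)).D :=
        total_prod_ge F S hp (fr_gpw F (2 * n + 1)) (sy_gpw F S (2 * n + 1)) hev
      rw [show 2 * (n + 1) = 2 * n + 1 + 1 by ring] at h1 ⊢
      calc b ^ (2 * n + 1 + 1) ≤ (n + 2) ^ (b ^ 2) *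
            total W (pw ops P (2 * n + 1)).X (pw ops P (2 * n + 1)).D := h1
        _ ≤ (2 * n + 1 + 1 + 1) ^ (b ^ 2) *
            total W (pw ops P (2 * n + 1 + 1)).X (pw ops P (2 * n + 1 + 1)).D :=
          Nat.mul_le_mul (Nat.pow_le_pow_left (by omega) _) h2
  · have h1 := hodd c
    have h2 : b ^ (2 * c + 1) ≤ b ^ (2 * (c + 1)) := by
      rcases Nat.eq_zero_or_pos b with h0 | h0
      · rw [h0, zero_pow (by omega)]; exact Nat.zero_le _
      · exact Nat.pow_le_pow_right h0 (by omega)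
    refine h2.trans (h1.trans ?_)
    exact Nat.mul_le_mul_right _ (Nat.pow_le_pow_left (by omega) _)

end Pool.Agent.V7H23.ZO
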