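import Pool.Agent.W539.Ker.Ops
import Pool.Agent.V7H23.ZO.Abs

/-!
# Commuting skew operators on the cohomology
-/

open CategoryTheory AlgebraicGeometry Finset

universe u v

namespace Pool.Agent.V7H23.ZO

open Pool.Agent.H914 Pool.Agent.H914.VarClass Pool.Agent.H914.VarClass.Obj
  Pool.Agent.H914.WeilCohomology Pool.Agent.H281R3.HT Pool.Agent.W552 Pool.Agent.W539.Ker

variable {k : Type u} [Field k] {𝒱 : VarClass k} {ops : CycleOps 𝒱}
  {W : WeilCohomology.{u, v} ops} {X Y Z : 𝒱.Obj}

lemma par_AS {e : W.H X} (he : AS W X e) : H914.par (W.isInternal X) e = e := by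
  refine AS.ind (p := fun y => H914.par (W.isInternal X) y = y) ?_ ?_ he
  · intro j y hy
    rw [H914.par, scal_apply _ _ (alg_gr hy), pow_mul]
    simp
  · intro y y' hy hy'
    rw [map_add, hy, hy']

lemma sy_AS {D : X.Cycles} {f : Module.End W.K (W.H X)} (S : Sy W X D f) {e : W.H X}
    (he : AS W X e) (x : W.H X) : bf W X D f x e = bf W X D f e x := by
  rw [S x e, par_AS he]

/-- The weight operator is self-adjoint. -/
lemma wt_self {D : X.Cycles} {f : Module.End W.K (W.H X)} (F : Fr W X D f) (a b : W.H X) :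
    bf W X D f (wt (W.isInternal X) X.dim a) b = bf W X D f a (wt (W.isInternal X) X.dim b) := by
  refine gr_induction (W.isInternal X) (p := fun a => bf W X D f (wt (W.isInternal X) X.dim a) b =
    bf W X D f a (wt (W.isInternal X) X.dim b)) ?_ ?_ a
  swap
  · intro a a' ha ha'
    rw [map_add, map_add, LinearMap.add_apply, ha, ha', map_add, LinearMap.add_apply]
  intro i a ha
  refine gr_induction (W.isInternal X) (p := fun b => bf W X D f (wt (W.isInternal X) X.dim a) b =
    bf W X D f a (wt (W.isInternal X) X.dim b)) ?_ ?_ b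
  swap
  · intro b b' hb hb'
    rw [map_add, hb, hb', map_add, map_add]
  intro j b hb
  rw [Fr.wt_gr ha, Fr.wt_gr hb, map_smul, LinearMap.smul_apply, map_smul]
  by_cases hij : i = j
  · rw [hij]
  · rw [F.bf_deg ha hb hij, smul_zero, smul_zero]

/-- A skew algebraic operator of weight zero whose square is a positive multiple of a
projector. -/
structure SkewOp (W : WeilCohomology.{u, v} ops) (X : 𝒱.Obj) (D : X.Cycles)
    (f : Module.End W.K (W.H X)) (j : Module.End W.K (W.H X)) : Prop where
  aop : AOp W X X j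
  skew : ∀ a b, bf W X D f (j a) b = -bf W X D f a (j b)
  cub : ∃ c : ℚ, 0 < c ∧ ∀ a, j (j (j a)) = (c : W.K) • j a
  wt : ∀ a, wt (W.isInternal X) X.dim (j a) = j (wt (W.isInternal X) X.dim a)

/-- Two orthogonal algebraic classes of the same weight with squares of opposite signs. -/
structure HPair (W : WeilCohomology.{u, v} ops) (X : 𝒱.Obj) (D : X.Cycles)
    (f : Module.End W.K (W.H X)) (e v : W.H X) : Prop where
  ase : AS W X e
  asv : AS W X v
  wt : ∃ w : W.K, wt (W.isInternal X) X.dim e = w • e ∧ wt (W.isInternal X) X.dim v = w • v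
  ee : ∃ a : ℚ, 0 < a ∧ bf W X D f e e = a
  vv : ∃ c : ℚ, 0 < c ∧ bf W X D f v v = -(c : W.K)
  ev : bf W X D f e v = 0

/-- The operator `a ↦ ⟨a, e⟩ v`. -/
noncomputable def ro (W : WeilCohomology.{u, v} ops) (X : 𝒱.Obj) (D : X.Cycles)
    (f : Module.End W.K (W.H X)) (e v : W.H X) : Module.End W.K (W.H X) :=
  ((bf W X D f).flip e).smulRight v

lemma ro_apply {D : X.Cycles} {f : Module.End W.K (W.H X)} (e v a : W.H X) :
    ro W X D f e v a = bf W X D f a e • v := rfl

lemma ro_aop {D : X.Cycles} {f : Module.End W.K (W.H X)} (F : Fr W X D f) {e v : W.H X}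
    (he : AS W X e) (hv : AS W X v) : AOp W X X (ro W X D f e v) := by
  refine ⟨_, (F.st_AS he).ext hv, ?_⟩
  apply LinearMap.ext
  intro a
  rw [corr_apply, H281R3.HT.ext, mul_assoc, (hv.map _).comm, ← mul_assoc, ← map_mul,
    push_snd, ro_apply, bf_apply, (F.st_AS he).comm]

/-- The operator which interchanges the two vectors of a pair. -/
noncomputable def jo (W : WeilCohomology.{u, v} ops) (X : 𝒱.Obj) (D : X.Cycles)
    (f : Module.End W.K (W.H X)) (e v : W.H X) : Module.End W.K (W.H X) :=
  ro W X D f e v + ((-1 : ℚ) : W.K) • ro W X D f v e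

lemma jo_apply {D : X.Cycles} {f : Module.End W.K (W.H X)} (e v a : W.H X) :
    jo W X D f e v a = bf W X D f a e • v - bf W X D f a v • e := by
  rw [jo, LinearMap.add_apply, LinearMap.smul_apply, ro_apply, ro_apply]
  push_cast
  rw [neg_one_smul, sub_eq_add_neg]

theorem HPair.skewOp {D : X.Cycles} {f : Module.End W.K (W.H X)} (F : Fr W X D f)
    (S : Sy W X D f) {e v : W.H X} (h : HPair W X D f e v) :
    SkewOp W X D f (jo W X D f e v) where
  aop := (ro_aop F h.ase h.asv).add ((ro_aop F h.asv h.ase).smul _)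
  skew a b := by
    rw [jo_apply, jo_apply, map_sub (bf W X D f), LinearMap.sub_apply, map_sub, map_smul,
      map_smul, map_smul, map_smul, LinearMap.smul_apply, LinearMap.smul_apply, ← sy_AS S h.asv b,
      ← sy_AS S h.ase b]
    simp only [smul_eq_mul]
    ring
  cub := by
    obtain ⟨a, ha, hee⟩ := h.ee
    obtain ⟨c, hc, hvv⟩ := h.vv
    refine ⟨a * c, mul_pos ha hc, fun x => ?_⟩
    have hve : bf W X D f v e = 0 := by rw [sy_AS S h.ase, h.ev]
    have e1 : jo W X D f e v e = (a : W.K) • v := by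
      rw [jo_apply, hee, h.ev, zero_smul, sub_zero]
    have e2 : jo W X D f e v v = (c : W.K) • e := by
      rw [jo_apply, hve, hvv, zero_smul, zero_sub, neg_smul, neg_neg]
    rw [jo_apply e v x, map_sub, map_sub, map_smul, map_smul, map_smul, map_smul, e1, e2,
      map_smul, map_smul, e1, e2, smul_sub]
    push_cast
    module
  wt a := by
    obtain ⟨w, hwe, hwv⟩ := h.wt
    rw [jo_apply, jo_apply, map_sub, map_smul, map_smul, hwe, hwv, wt_self F, wt_self F, hwe, hwv,
      map_smul, map_smul, smul_smul, smul_smul, smul_eq_mul, smul_eq_mul, mul_comm w,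
      mul_comm w]

/-! ### Contractions -/

/-- The contraction of a class on the product with a linear form on the first factor. -/
noncomputable def ctr (W : WeilCohomology.{u, v} ops) (X Y : 𝒱.Obj) :
    Module.Dual W.K (W.H X) →ₗ[W.K] W.H (X.prod Y) →ₗ[W.K] W.H Y :=
  LinearMap.mk₂ W.K (fun φ x => TensorProduct.lid W.K (W.H Y)
      (TensorProduct.map φ LinearMap.id ((kappa W X Y).symm x)))
    (fun φ φ' x => by rw [TensorProduct.map_add_left, LinearMap.add_apply, map_add])
    (fun c φ x => by rw [TensorProduct.map_smul_left, LinearMap.smul_apply, map_smul])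
    (fun φ x x' => by rw [map_add, map_add, map_add])
    (fun c φ x => by rw [map_smul, map_smul, map_smul])

lemma ctr_tmul (φ : Module.Dual W.K (W.H X)) (a : W.H X) (b : W.H Y) :
    ctr W X Y φ (W.map (fst X Y) a * W.map (snd X Y) b) = φ a • b := by
  change TensorProduct.lid W.K (W.H Y) (TensorProduct.map φ LinearMap.id
    ((kappa W X Y).symm (W.map (fst X Y) a * W.map (snd X Y) b))) = φ a • b
  rw [← kappa_tmul, LinearEquiv.symm_apply_apply, TensorProduct.map_tmul, TensorProduct.lid_tmul]
  rfl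

lemma ctr_ext (φ : Module.Dual W.K (W.H X)) (j : Module.End W.K (W.H Y)) (x : W.H (X.prod Y)) :
    ctr W X Y φ (extOp W 1 j x) = j (ctr W X Y φ x) := by
  have h : ctr W X Y φ ∘ₗ extOp W 1 j = j ∘ₗ ctr W X Y φ := by
    apply ext_kunneth_lin
    intro a b
    rw [LinearMap.comp_apply, LinearMap.comp_apply, extOp_tmul, ctr_tmul, ctr_tmul, map_smul]
    rfl
  exact congrArg (fun F => F x) h

lemma jo_ext {D : X.Cycles} {f : Module.End W.K (W.H X)} (e v : W.H X) (x : W.H (X.prod Y)) :
    extOp W (jo W X D f e v) 1 x =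
      W.map (fst X Y) v * W.map (snd X Y) (ctr W X Y ((bf W X D f).flip e) x) -
      W.map (fst X Y) e * W.map (snd X Y) (ctr W X Y ((bf W X D f).flip v) x) := by
  have h : extOp W (jo W X D f e v) 1 =
      LinearMap.mulLeft W.K (W.map (fst X Y) v) ∘ₗ (W.map (snd X Y)).toLinearMap ∘ₗ
        ctr W X Y ((bf W X D f).flip e) -
      LinearMap.mulLeft W.K (W.map (fst X Y) e) ∘ₗ (W.map (snd X Y)).toLinearMap ∘ₗ
        ctr W X Y ((bf W X D f).flip v) := by
    apply ext_kunneth_lin
    intro a b
    rw [extOp_tmul, LinearMap.sub_apply, LinearMap.comp_apply, LinearMap.comp_apply,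
      LinearMap.comp_apply, LinearMap.comp_apply, ctr_tmul, ctr_tmul, jo_apply, map_sub, map_smul,
      map_smul, sub_mul, smul_mul_assoc, smul_mul_assoc, LinearMap.mulLeft_apply,
      LinearMap.mulLeft_apply, map_smul, map_smul, mul_smul_comm, mul_smul_comm]
    rfl
  exact congrArg (fun F => F x) h

lemma eq_zero_of_ctr {x : W.H (X.prod Y)} (h : ∀ φ, ctr W X Y φ x = 0) : x = 0 := by
  obtain ⟨bX⟩ := exists_HB W X
  obtain ⟨bY⟩ := exists_HB W Y
  apply (bX.ex bY).ext_elem
  rintro ⟨p, q⟩
  have key : (bX.ex bY).coord (p, q) = (bY.e.coord q) ∘ₗ ctr W X Y (bX.e.coord p) := by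
    apply ext_kunneth_lin
    intro a b
    rw [LinearMap.comp_apply, ctr_tmul, map_smul]
    exact repr_ext bX bY a b p q
  have h1 := congrArg (fun F => F x) key
  simp only [LinearMap.comp_apply, h, map_zero] at h1
  rw [map_zero]
  exact h1

end Pool.Agent.V7H23.ZO
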