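import Pool.Agent.V7H23.ZO.FrGd
import Pool.Agent.V7H23.ZO.Gram

/-!
# Permutations of the factors of a power
-/

open CategoryTheory AlgebraicGeometry Finset

universe u v

namespace Pool.Agent.V7H23.ZO

open Pool.Agent.H914 Pool.Agent.H914.VarClass Pool.Agent.H914.VarClass.Obj
  Pool.Agent.H914.WeilCohomology Pool.Agent.H281R3.HT Pool.Agent.W552 Pool.Agent.W539.Ker

section Lists

variable {K : Type*} [Field K] {A : Type*} [Ring A] [Algebra K A] {gr : ℕ → Submodule K A}

/-- Reordering a product of homogeneous elements. -/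
lemma perm_sign (hcomm : ∀ {i j : ℕ} {a b : A}, a ∈ gr i → b ∈ gr j →
    a * b = (-1 : K) ^ (i * j) • (b * a)) {ι : Type*} (d : ι → ℕ) {l l' : List ι}
    (h : l.Perm l') : ∃ ε : ℤ, (ε = 1 ∨ ε = -1) ∧ ∀ y : ι → A, (∀ i, y i ∈ gr (d i)) →
      (l.map y).prod = (ε : K) • (l'.map y).prod := by
  induction h with
  | nil => exact ⟨1, Or.inl rfl, fun y _ => by simp⟩
  | cons i _ ih =>
    obtain ⟨ε, hε, h⟩ := ih
    refine ⟨ε, hε, fun y hy => ?_⟩
    rw [List.map_cons, List.prod_cons, List.map_cons, List.prod_cons, h y hy, mul_smul_comm]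
  | swap i j l =>
    refine ⟨(-1) ^ (d j * d i), ?_, fun y hy => ?_⟩
    · rcases Nat.even_or_odd (d j * d i) with he | ho
      · left; exact he.neg_one_pow
      · right; exact ho.neg_one_pow
    · rw [List.map_cons, List.prod_cons, List.map_cons, List.prod_cons, List.map_cons,
        List.prod_cons, List.map_cons, List.prod_cons, ← mul_assoc, ← mul_assoc,
        hcomm (hy j) (hy i), smul_mul_assoc]
      push_cast
      rfl
  | trans _ _ ih ih' =>
    obtain ⟨ε, hε, h⟩ := ih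
    obtain ⟨ε', hε', h'⟩ := ih'
    refine ⟨ε * ε', ?_, fun y hy => ?_⟩
    · rcases hε with rfl | rfl <;> rcases hε' with rfl | rfl <;> simp
    · rw [h y hy, h' y hy, smul_smul]
      push_cast
      rfl

end Lists

variable {k : Type u} [Field k] {𝒱 : VarClass k} {ops : CycleOps 𝒱}
  {W : WeilCohomology.{u, v} ops} {X Y Z : 𝒱.Obj}

/-- The morphism to the power with given components. -/
noncomputable def mlift (ops : CycleOps 𝒱) (P : Polarized 𝒱) {Z : 𝒱.Obj} :
    (n : ℕ) → (Fin (n + 1) → (Z ⟶ P.X)) → (Z ⟶ (pw ops P n).X)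
  | 0, g => g 0
  | n + 1, g => Obj.lift (g 0) (mlift ops P n (fun i => g i.succ))

/-- The projections of the power. -/
noncomputable abbrev pr (ops : CycleOps 𝒱) (P : Polarized 𝒱) (n : ℕ) (a : Fin (n + 1)) :
    (pw ops P n).X ⟶ P.X := prj ops n (fun _ => P) a

lemma mlift_pr (P : Polarized 𝒱) {Z : 𝒱.Obj} (n : ℕ) (g : Fin (n + 1) → (Z ⟶ P.X))
    (a : Fin (n + 1)) : mlift ops P n g ≫ pr ops P n a = g a := by
  induction n with
  | zero =>
    obtain rfl : a = 0 := Fin.eq_zero a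
    exact Category.comp_id (g 0)
  | succ n ih =>
    refine Fin.cases ?_ (fun i => ?_) a
    · exact Obj.lift_fst _ _
    · change Obj.lift (g 0) (mlift ops P n (fun i => g i.succ)) ≫
        (snd P.X (pw ops P n).X ≫ pr ops P n i) = g i.succ
      rw [← Category.assoc, Obj.lift_snd]
      exact ih (fun i => g i.succ) i

/-- The permutation of the factors. -/
noncomputable def pmap (ops : CycleOps 𝒱) (P : Polarized 𝒱) (n : ℕ)
    (σ : Equiv.Perm (Fin (n + 1))) : (pw ops P n).X ⟶ (pw ops P n).X :=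
  mlift ops P n (fun a => pr ops P n (σ a))

lemma map_pmap (W : WeilCohomology.{u, v} ops) (P : Polarized 𝒱) (n : ℕ)
    (σ : Equiv.Perm (Fin (n + 1))) (a : Fin (n + 1)) (x : W.H P.X) :
    W.map (pmap ops P n σ) (W.map (pr ops P n a) x) = W.map (pr ops P n (σ a)) x := by
  rw [← W.map_comp, pmap, mlift_pr]

/-- The external product of classes on the factors. -/
noncomputable def mo (W : WeilCohomology.{u, v} ops) (P : Polarized 𝒱) (n : ℕ)
    (x : Fin (n + 1) → W.H P.X) : W.H (pw ops P n).X :=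
  ((List.finRange (n + 1)).map fun a => W.map (pr ops P n a) (x a)).prod

lemma mo_zero (P : Polarized 𝒱) (x : Fin 1 → W.H P.X) : mo W P 0 x = x 0 := by
  have h0 : List.finRange (0 + 1) = [0] := rfl
  rw [mo, h0, List.map_cons, List.map_nil, List.prod_cons, List.prod_nil, mul_one]
  exact W.map_id _ _

lemma mo_succ (P : Polarized 𝒱) (n : ℕ) (x : Fin (n + 2) → W.H P.X) :
    mo W P (n + 1) x = H281R3.HT.ext W (X := P.X) (Y := (pw ops P n).X) (x 0)
      (mo W P n (fun i => x i.succ)) := by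
  rw [mo, List.finRange_succ, List.map_cons, List.prod_cons, List.map_map, H281R3.HT.ext, mo,
    map_list_prod, List.map_map]
  congr 2
  apply List.map_congr_left
  intro a _
  exact W.map_comp _ _ _

/-- The form on external products. -/
noncomputable def gpw (W : WeilCohomology.{u, v} ops) (P : Polarized 𝒱)
    (f : Module.End W.K (W.H P.X)) : (n : ℕ) → Module.End W.K (W.H (pw ops P n).X)
  | 0 => f
  | n + 1 => extSum W (Y := P.X) (Z := (pw ops P n).X) f (gpw W P f n)

variable {P : Polarized 𝒱} {f : Module.End W.K (W.H P.X)}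

lemma fr_gpw (F : Fr W P.X P.D f) (n : ℕ) :
    Fr W (pw ops P n).X (pw ops P n).D (gpw W P f n) := by
  induction n with
  | zero => exact F
  | succ n ih => exact F.prod ih

lemma sy_gpw (F : Fr W P.X P.D f) (S : Sy W P.X P.D f) (n : ℕ) :
    Sy W (pw ops P n).X (pw ops P n).D (gpw W P f n) := by
  induction n with
  | zero => exact S
  | succ n ih => exact S.prod F (fr_gpw F n) ih

lemma pos1_gpw (F : Fr W P.X P.D f) (h : Pos1 W P.X P.D f) (n : ℕ) :
    Pos1 W (pw ops P n).X (pw ops P n).D (gpw W P f n) := by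
  induction n with
  | zero => exact h
  | succ n ih => exact pos1_prod F (fr_gpw F n) h ih

lemma bf_mo (F : Fr W P.X P.D f) (n : ℕ) (x y : Fin (n + 1) → W.H P.X) :
    bf W (pw ops P n).X (pw ops P n).D (gpw W P f n) (mo W P n x) (mo W P n y) =
      ∏ a, bf W P.X P.D f (x a) (y a) := by
  induction n with
  | zero =>
    rw [mo_zero, mo_zero, Fin.prod_univ_one]
    rfl
  | succ n ih =>
    rw [mo_succ, mo_succ, Fin.prod_univ_succ, ← ih]
    exact F.bf_ext (fr_gpw F n) _ _ _ _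

/-- The basis of external products. -/
noncomputable def pwB (b : HB W P.X) :
    (n : ℕ) → Module.Basis (Fin (n + 1) → Fin b.N) W.K (W.H (pw ops P n).X)
  | 0 => b.e.reindex (Equiv.funUnique (Fin 1) (Fin b.N)).symm
  | n + 1 => ((b.e.tensorProduct (pwB b n)).map (kappa W P.X (pw ops P n).X)).reindex
      (Fin.consEquiv fun _ => Fin b.N)

lemma pwB_apply (b : HB W P.X) (n : ℕ) (φ : Fin (n + 1) → Fin b.N) :
    pwB b n φ = mo W P n (fun a => b.e (φ a)) := by
  induction n with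
  | zero =>
    rw [mo_zero]
    exact b.e.reindex_apply (Equiv.funUnique (Fin 1) (Fin b.N)).symm φ
  | succ n ih =>
    rw [mo_succ]
    refine (Module.Basis.reindex_apply ((b.e.tensorProduct (pwB b n)).map
      (kappa W P.X (pw ops P n).X)) (Fin.consEquiv fun _ => Fin b.N) φ).trans ?_
    rw [Module.Basis.map_apply, Module.Basis.tensorProduct_apply', kappa_tmul, ih]
    rfl

/-- The operator given by a permutation of the factors. -/
noncomputable def uo (W : WeilCohomology.{u, v} ops) (P : Polarized 𝒱) (n : ℕ)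
    (σ : Equiv.Perm (Fin (n + 1))) : Module.End W.K (W.H (pw ops P n).X) :=
  (W.map (pmap ops P n σ)).toLinearMap

lemma uo_prod (n : ℕ) (σ : Equiv.Perm (Fin (n + 1))) (τ : Fin (n + 1) → Fin (n + 1))
    (x : Fin (n + 1) → W.H P.X) :
    uo W P n σ ((List.finRange (n + 1)).map fun a => W.map (pr ops P n (τ a)) (x a)).prod =
      ((List.finRange (n + 1)).map fun a => W.map (pr ops P n (σ (τ a))) (x a)).prod := by
  change W.map (pmap ops P n σ) _ = _
  rw [map_list_prod, List.map_map]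
  congr 1
  apply List.map_congr_left
  intro a _
  exact map_pmap W P n σ (τ a) (x a)

lemma uo_mo (n : ℕ) (σ : Equiv.Perm (Fin (n + 1))) (x : Fin (n + 1) → W.H P.X) :
    uo W P n σ (mo W P n x) =
      ((List.finRange (n + 1)).map fun a => W.map (pr ops P n (σ a)) (x a)).prod :=
  uo_prod n σ id x

lemma uo_mul (n : ℕ) (σ τ : Equiv.Perm (Fin (n + 1))) :
    uo W P n σ * uo W P n τ = uo W P n (σ * τ) := by
  obtain ⟨b⟩ := exists_HB W P.X
  apply (pwB b n).ext
  intro φ
  rw [pwB_apply, Module.End.mul_apply, uo_mo, uo_prod, uo_mo]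
  rfl

lemma uo_one (n : ℕ) : uo W P n 1 = 1 := by
  obtain ⟨b⟩ := exists_HB W P.X
  apply (pwB b n).ext
  intro φ
  rw [pwB_apply, uo_mo, Module.End.one_apply]
  rfl

/-- The sign. -/
lemma exists_sign (W : WeilCohomology.{u, v} ops) (P : Polarized 𝒱) (n : ℕ)
    (σ : Equiv.Perm (Fin (n + 1))) (d : Fin (n + 1) → ℕ) :
    ∃ ε : ℤ, (ε = 1 ∨ ε = -1) ∧ ∀ x : Fin (n + 1) → W.H P.X, (∀ a, x a ∈ W.gr P.X (d a)) →
      uo W P n σ (mo W P n x) = (ε : W.K) • mo W P n (x ∘ ⇑(σ⁻¹)) := by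
  obtain ⟨ε, hε, h⟩ := perm_sign (K := W.K) (gr := W.gr (pw ops P n).X)
    (fun ha hb => W.comm ha hb) (d ∘ ⇑(σ⁻¹)) (Equiv.Perm.map_finRange_perm σ)
  refine ⟨ε, hε, fun x hx => ?_⟩
  have h1 := h (fun c => W.map (pr ops P n c) (x (σ⁻¹ c))) (fun c => W.map_mem _ (hx _))
  have h2 : mo W P n (x ∘ ⇑(σ⁻¹)) = ((List.finRange (n + 1)).map
    fun c => W.map (pr ops P n c) (x (σ⁻¹ c))).prod := rfl
  rw [uo_mo, h2, ← h1, List.map_map]
  congr 1
  apply List.map_congr_left
  intro a _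
  change W.map (pr ops P n (σ a)) (x a) = W.map (pr ops P n (σ a)) (x (σ.symm (σ a)))
  rw [Equiv.symm_apply_apply]

/-- The operators are isometries. -/
lemma uo_isometry (F : Fr W P.X P.D f) (n : ℕ) (σ : Equiv.Perm (Fin (n + 1)))
    (a b : W.H (pw ops P n).X) :
    bf W (pw ops P n).X (pw ops P n).D (gpw W P f n) (uo W P n σ a) (uo W P n σ b) =
      bf W (pw ops P n).X (pw ops P n).D (gpw W P f n) a b := by
  obtain ⟨bX⟩ := exists_HB W P.X
  have h : (bf W (pw ops P n).X (pw ops P n).D (gpw W P f n)).compl₁₂ (uo W P n σ)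
      (uo W P n σ) = bf W (pw ops P n).X (pw ops P n).D (gpw W P f n) := by
    apply (pwB bX n).ext
    intro φ
    apply (pwB bX n).ext
    intro ψ
    rw [LinearMap.compl₁₂_apply, pwB_apply, pwB_apply, bf_mo F]
    obtain ⟨ε, hε, h1⟩ := exists_sign W P n σ (fun a => bX.dg (φ a))
    by_cases hd : ∀ a, bX.dg (φ a) = bX.dg (ψ a)
    · rw [h1 _ (fun a => bX.mem _), h1 (fun a => bX.e (ψ a)) (fun a => by rw [hd]; exact bX.mem _),
        map_smul, map_smul, LinearMap.smul_apply, bf_mo F, smul_smul]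
      have h2 : (ε : W.K) * ε = 1 := by
        rcases hε with rfl | rfl <;> simp
      rw [h2, one_smul]
      exact Equiv.prod_comp σ⁻¹ (fun a => bf W P.X P.D f (bX.e (φ a)) (bX.e (ψ a)))
    · push Not at hd
      obtain ⟨a, ha⟩ := hd
      obtain ⟨ε', hε', h1'⟩ := exists_sign W P n σ (fun a => bX.dg (ψ a))
      rw [h1 _ (fun a => bX.mem _), h1' _ (fun a => bX.mem _), map_smul, map_smul,
        LinearMap.smul_apply, bf_mo F]
      have h3 : bf W P.X P.D f (bX.e (φ a)) (bX.e (ψ a)) = 0 :=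
        F.bf_deg (bX.mem _) (bX.mem _) ha
      rw [Finset.prod_eq_zero (Finset.mem_univ (σ a)), Finset.prod_eq_zero (Finset.mem_univ a) h3,
        smul_zero, smul_zero]
      change bf W P.X P.D f (bX.e (φ (σ.symm (σ a)))) (bX.e (ψ (σ.symm (σ a)))) = 0
      rw [Equiv.symm_apply_apply, h3]
  exact congrArg (fun F => F a b) h

lemma uo_adj (F : Fr W P.X P.D f) (n : ℕ) (σ : Equiv.Perm (Fin (n + 1)))
    (a b : W.H (pw ops P n).X) :
    bf W (pw ops P n).X (pw ops P n).D (gpw W P f n) (uo W P n σ a) b =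
      bf W (pw ops P n).X (pw ops P n).D (gpw W P f n) a (uo W P n σ⁻¹ b) := by
  rw [← uo_isometry F n σ a (uo W P n σ⁻¹ b), ← Module.End.mul_apply, uo_mul, mul_inv_cancel,
    uo_one, Module.End.one_apply]

lemma uo_aop (n : ℕ) (σ : Equiv.Perm (Fin (n + 1))) :
    AOp W (pw ops P n).X (pw ops P n).X (uo W P n σ) := by
  obtain ⟨z, hz, hz'⟩ := exists_graph (W := W) (pmap ops P n σ) 1
  rw [pow_one] at hz'
  exact ⟨_, AS.of ⟨z, hz, rfl⟩, hz'⟩

lemma uo_wt (n : ℕ) (σ : Equiv.Perm (Fin (n + 1))) : Hm W 0 (uo W P n σ) := by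
  rw [Hm]
  apply gr_ext (W.isInternal (pw ops P n).X)
  intro i a ha
  have h1 : uo W P n σ a ∈ W.gr (pw ops P n).X i := W.map_mem _ ha
  rw [LinearMap.comp_apply, Fr.wt_gr h1, LinearMap.add_apply, LinearMap.comp_apply, Fr.wt_gr ha,
    map_smul]
  simp

/-- **The trace.** -/
lemma trace_uo (n : ℕ) (σ : Equiv.Perm (Fin (n + 1))) :
    ∃ t : ℤ, LinearMap.trace W.K (W.H (pw ops P n).X) (uo W P n σ) = (t : W.K) ∧
      |t| ≤ nfix (n + 1) (Module.finrank W.K (W.H P.X)) σ := by
  classical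
  obtain ⟨b⟩ := exists_HB W P.X
  have hN : b.N = Module.finrank W.K (W.H P.X) := by
    rw [Module.finrank_eq_card_basis b.e, Fintype.card_fin]
  choose ε hε hεs using fun φ : Fin (n + 1) → Fin b.N =>
    exists_sign W P n σ (fun a => b.dg (φ a))
  refine ⟨∑ φ : Fin (n + 1) → Fin b.N, if φ ∘ ⇑(σ⁻¹) = φ then ε φ else 0, ?_, ?_⟩
  · rw [LinearMap.trace_eq_matrix_trace W.K (pwB b n), Matrix.trace]
    push_cast
    apply Finset.sum_congr rfl
    intro φ _
    rw [Matrix.diag_apply, LinearMap.toMatrix_apply, pwB_apply,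
      hεs φ (fun a => b.e (φ a)) (fun a => b.mem _), map_smul, Finsupp.smul_apply]
    have h1 : mo W P n ((fun a => b.e (φ a)) ∘ ⇑(σ⁻¹)) = pwB b n (φ ∘ ⇑(σ⁻¹)) := by
      rw [pwB_apply]
      rfl
    rw [h1, Module.Basis.repr_self, Finsupp.single_apply]
    split_ifs with h
    · simp
    · simp
  · rw [nfix, ← hN]
    refine (Finset.abs_sum_le_sum_abs _ _).trans ?_
    have h1 : ∀ φ : Fin (n + 1) → Fin b.N, |if φ ∘ ⇑(σ⁻¹) = φ then ε φ else 0| =
        if φ ∘ ⇑(σ⁻¹) = φ then 1 else 0 := by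
      intro φ
      split_ifs with h
      · rcases hε φ with h2 | h2 <;> rw [h2] <;> simp
      · simp
    rw [Finset.sum_congr rfl (fun φ _ => h1 φ), Fintype.card_subtype, Finset.card_filter]
    push_cast
    exact le_rfl

lemma trace_uo_one (n : ℕ) : LinearMap.trace W.K (W.H (pw ops P n).X) (uo W P n 1) =
    ((Module.finrank W.K (W.H P.X) ^ (n + 1) : ℕ) : W.K) := by
  rw [uo_one, LinearMap.trace_one, finrank_pw]

end Pool.Agent.V7H23.ZO
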