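import Pool.Agent.V7H23.ZO.Bound

/-!
# Powers and their bracketings
-/

open CategoryTheory AlgebraicGeometry Finset

universe u v

namespace Pool.Agent.V7H23.ZO

open Pool.Agent.H914 Pool.Agent.H914.VarClass Pool.Agent.H914.VarClass.Obj
  Pool.Agent.H914.WeilCohomology Pool.Agent.H281R3.HT Pool.Agent.W552 Pool.Agent.W539.Ker

variable {k : Type u} [Field k] {𝒱 : VarClass k} {ops : CycleOps 𝒱}
  {W : WeilCohomology.{u, v} ops} {X Y Z : 𝒱.Obj}

/-- A morphism which preserves the dimension, the divisor and the orientation. -/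
def PMap (W : WeilCohomology.{u, v} ops) (P Q : Polarized 𝒱) : Prop :=
  P.X.dim = Q.X.dim ∧ ∃ φ : P.X ⟶ Q.X, W.map φ (W.cl Q.X Q.D) = W.cl P.X P.D ∧
    ∀ c, W.tr P.X (W.map φ c) = W.tr Q.X c

lemma PMap.refl (P : Polarized 𝒱) : PMap W P P :=
  ⟨rfl, 𝟙 P.X, W.map_id _ _, fun c => by rw [W.map_id]⟩

lemma PMap.trans {P Q R : Polarized 𝒱} (h : PMap W P Q) (h' : PMap W Q R) : PMap W P R := by
  obtain ⟨hd, φ, h1, h2⟩ := h
  obtain ⟨hd', ψ, h3, h4⟩ := h'
  refine ⟨hd.trans hd', φ ≫ ψ, ?_, fun c => ?_⟩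
  · rw [W.map_comp, h3, h1]
  · rw [W.map_comp, h2, h4]

lemma PMap.prod {P P' Q Q' : Polarized 𝒱} (h : PMap W P P') (h' : PMap W Q Q') :
    PMap W (P.prod ops Q) (P'.prod ops Q') := by
  obtain ⟨hd, φ, h1, h2⟩ := h
  obtain ⟨hd', ψ, h3, h4⟩ := h'
  have e1 : Obj.lift (fst P.X Q.X ≫ φ) (snd P.X Q.X ≫ ψ) ≫ fst P'.X Q'.X = fst P.X Q.X ≫ φ :=
    Obj.lift_fst _ _
  have e2 : Obj.lift (fst P.X Q.X ≫ φ) (snd P.X Q.X ≫ ψ) ≫ snd P'.X Q'.X = snd P.X Q.X ≫ ψ :=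
    Obj.lift_snd _ _
  refine ⟨?_, Obj.lift (fst P.X Q.X ≫ φ) (snd P.X Q.X ≫ ψ), ?_, ?_⟩
  · change P.X.dim + Q.X.dim = P'.X.dim + Q'.X.dim
    rw [hd, hd']
  · change W.map (Obj.lift (fst P.X Q.X ≫ φ) (snd P.X Q.X ≫ ψ))
      (W.cl (P'.X.prod Q'.X) (ops.pull (fst P'.X Q'.X) P'.D + ops.pull (snd P'.X Q'.X) Q'.D)) =
      W.cl (P.X.prod Q.X) (ops.pull (fst P.X Q.X) P.D + ops.pull (snd P.X Q.X) Q.D)
    rw [map_add, map_add, map_add, W.cl_pull, W.cl_pull, W.cl_pull, W.cl_pull, ← W.map_comp,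
      ← W.map_comp, e1, e2, W.map_comp, W.map_comp, h1, h3]
  · intro c
    change W.tr (P.X.prod Q.X) (W.map (Obj.lift (fst P.X Q.X ≫ φ) (snd P.X Q.X ≫ ψ)) c) =
      W.tr (P'.X.prod Q'.X) c
    refine W.kunneth_induction (p := fun c => W.tr (P.X.prod Q.X)
      (W.map (Obj.lift (fst P.X Q.X ≫ φ) (snd P.X Q.X ≫ ψ)) c) =
      W.tr (P'.X.prod Q'.X) c) ?_ ?_ c
    · intro a b ha hb
      rw [map_add, map_add, map_add, ha, hb]
    · intro i j a _ b _
      rw [map_mul, ← W.map_comp, ← W.map_comp, e1, e2, W.map_comp, W.map_comp, W.tr_prod,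
        W.tr_prod, h2, h4]

/-- The class of the divisor on a product. -/
lemma cl_prod_D (P Q : Polarized 𝒱) : W.cl (P.prod ops Q).X (P.prod ops Q).D =
    W.map (fst P.X Q.X) (W.cl P.X P.D) + W.map (snd P.X Q.X) (W.cl Q.X Q.D) := by
  change W.cl (P.X.prod Q.X) (ops.pull (fst P.X Q.X) P.D + ops.pull (snd P.X Q.X) Q.D) = _
  rw [map_add, W.cl_pull, W.cl_pull]

lemma PMap.assoc (R P Q : Polarized 𝒱) :
    PMap W (R.prod ops (P.prod ops Q)) ((R.prod ops P).prod ops Q) := by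
  set X := R.X with hX
  set Y := P.X with hY
  set Z := Q.X with hZ
  let φ : X.prod (Y.prod Z) ⟶ (X.prod Y).prod Z :=
    Obj.lift (Obj.lift (fst X (Y.prod Z)) (snd X (Y.prod Z) ≫ fst Y Z))
      (snd X (Y.prod Z) ≫ snd Y Z)
  have e1 : φ ≫ fst (X.prod Y) Z = Obj.lift (fst X (Y.prod Z)) (snd X (Y.prod Z) ≫ fst Y Z) :=
    Obj.lift_fst _ _
  have e2 : φ ≫ snd (X.prod Y) Z = snd X (Y.prod Z) ≫ snd Y Z := Obj.lift_snd _ _
  have e3 : Obj.lift (fst X (Y.prod Z)) (snd X (Y.prod Z) ≫ fst Y Z) ≫ fst X Y =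
    fst X (Y.prod Z) := Obj.lift_fst _ _
  have e4 : Obj.lift (fst X (Y.prod Z)) (snd X (Y.prod Z) ≫ fst Y Z) ≫ snd X Y =
    snd X (Y.prod Z) ≫ fst Y Z := Obj.lift_snd _ _
  refine ⟨?_, φ, ?_, ?_⟩
  · change X.dim + (Y.dim + Z.dim) = (X.dim + Y.dim) + Z.dim
    rw [add_assoc]
  · have h1 := cl_prod_D (W := W) (R.prod ops P) Q
    have h2 := cl_prod_D (W := W) R P
    have h3 := cl_prod_D (W := W) R (P.prod ops Q)
    have h4 := cl_prod_D (W := W) P Q
    rw [h1, h2, h3, h4]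
    change W.map φ (W.map (fst (X.prod Y) Z) (W.map (fst X Y) (W.cl X R.D) +
      W.map (snd X Y) (W.cl Y P.D)) + W.map (snd (X.prod Y) Z) (W.cl Z Q.D)) =
      W.map (fst X (Y.prod Z)) (W.cl X R.D) + W.map (snd X (Y.prod Z))
        (W.map (fst Y Z) (W.cl Y P.D) + W.map (snd Y Z) (W.cl Z Q.D))
    rw [map_add, ← W.map_comp, ← W.map_comp, e1, e2, map_add, ← W.map_comp, ← W.map_comp, e3, e4,
      W.map_comp, W.map_comp, map_add, add_assoc]
  · intro c
    change W.tr (X.prod (Y.prod Z)) (W.map φ c) = W.tr ((X.prod Y).prod Z) c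
    refine W.kunneth_induction (p := fun c => W.tr (X.prod (Y.prod Z)) (W.map φ c) =
      W.tr ((X.prod Y).prod Z) c) ?_ ?_ c
    · intro a b ha hb
      rw [map_add, map_add, map_add, ha, hb]
    · intro i j a _ b _
      rw [map_mul, ← W.map_comp, ← W.map_comp, e1, e2, W.tr_prod]
      refine W.kunneth_induction (p := fun a => W.tr (X.prod (Y.prod Z))
        (W.map (Obj.lift (fst X (Y.prod Z)) (snd X (Y.prod Z) ≫ fst Y Z)) a *
          W.map (snd X (Y.prod Z) ≫ snd Y Z) b) = W.tr (X.prod Y) a * W.tr Z b) ?_ ?_ a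
      · intro a a' ha ha'
        rw [map_add, add_mul, map_add, ha, ha', map_add, add_mul]
      · intro i j a₁ _ a₂ _
        rw [map_mul (W.map (Obj.lift (fst X (Y.prod Z)) (snd X (Y.prod Z) ≫ fst Y Z))),
          ← W.map_comp, ← W.map_comp, e3, e4, W.map_comp, W.map_comp, mul_assoc,
          ← map_mul, W.tr_prod, W.tr_prod, W.tr_prod, mul_assoc]

lemma PMap.assoc' (R P Q : Polarized 𝒱) :
    PMap W ((R.prod ops P).prod ops Q) (R.prod ops (P.prod ops Q)) := by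
  set X := R.X with hX
  set Y := P.X with hY
  set Z := Q.X with hZ
  let φ : (X.prod Y).prod Z ⟶ X.prod (Y.prod Z) :=
    Obj.lift (fst (X.prod Y) Z ≫ fst X Y)
      (Obj.lift (fst (X.prod Y) Z ≫ snd X Y) (snd (X.prod Y) Z))
  have e1 : φ ≫ fst X (Y.prod Z) = fst (X.prod Y) Z ≫ fst X Y := Obj.lift_fst _ _
  have e2 : φ ≫ snd X (Y.prod Z) = Obj.lift (fst (X.prod Y) Z ≫ snd X Y) (snd (X.prod Y) Z) :=
    Obj.lift_snd _ _
  have e3 : Obj.lift (fst (X.prod Y) Z ≫ snd X Y) (snd (X.prod Y) Z) ≫ fst Y Z =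
    fst (X.prod Y) Z ≫ snd X Y := Obj.lift_fst _ _
  have e4 : Obj.lift (fst (X.prod Y) Z ≫ snd X Y) (snd (X.prod Y) Z) ≫ snd Y Z =
    snd (X.prod Y) Z := Obj.lift_snd _ _
  refine ⟨?_, φ, ?_, ?_⟩
  · change (X.dim + Y.dim) + Z.dim = X.dim + (Y.dim + Z.dim)
    rw [add_assoc]
  · have h1 := cl_prod_D (W := W) (R.prod ops P) Q
    have h2 := cl_prod_D (W := W) R P
    have h3 := cl_prod_D (W := W) R (P.prod ops Q)
    have h4 := cl_prod_D (W := W) P Q
    rw [h1, h2, h3, h4]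
    change W.map φ (W.map (fst X (Y.prod Z)) (W.cl X R.D) + W.map (snd X (Y.prod Z))
        (W.map (fst Y Z) (W.cl Y P.D) + W.map (snd Y Z) (W.cl Z Q.D))) =
      W.map (fst (X.prod Y) Z) (W.map (fst X Y) (W.cl X R.D) +
      W.map (snd X Y) (W.cl Y P.D)) + W.map (snd (X.prod Y) Z) (W.cl Z Q.D)
    rw [map_add, ← W.map_comp, ← W.map_comp, e1, e2, map_add, ← W.map_comp, ← W.map_comp, e3, e4,
      W.map_comp, W.map_comp, map_add, add_assoc]
  · intro c
    change W.tr ((X.prod Y).prod Z) (W.map φ c) = W.tr (X.prod (Y.prod Z)) c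
    refine W.kunneth_induction (p := fun c => W.tr ((X.prod Y).prod Z) (W.map φ c) =
      W.tr (X.prod (Y.prod Z)) c) ?_ ?_ c
    · intro a b ha hb
      rw [map_add, map_add, map_add, ha, hb]
    · intro i j a _ b _
      rw [map_mul, ← W.map_comp, ← W.map_comp, e1, e2, W.tr_prod]
      refine W.kunneth_induction (p := fun b => W.tr ((X.prod Y).prod Z)
        (W.map (fst (X.prod Y) Z ≫ fst X Y) a *
          W.map (Obj.lift (fst (X.prod Y) Z ≫ snd X Y) (snd (X.prod Y) Z)) b) =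
            W.tr X a * W.tr (Y.prod Z) b) ?_ ?_ b
      · intro b b' hb hb'
        rw [map_add, mul_add, map_add, hb, hb', map_add, mul_add]
      · intro i j b₁ _ b₂ _
        rw [map_mul (W.map (Obj.lift (fst (X.prod Y) Z ≫ snd X Y) (snd (X.prod Y) Z))),
          ← W.map_comp, ← W.map_comp, e3, e4, W.map_comp, W.map_comp, ← mul_assoc,
          ← map_mul, W.tr_prod, W.tr_prod, W.tr_prod, mul_assoc]

/-- Maps in both directions. -/
def PEq (W : WeilCohomology.{u, v} ops) (P Q : Polarized 𝒱) : Prop := PMap W P Q ∧ PMap W Q P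

lemma PEq.refl (P : Polarized 𝒱) : PEq W P P := ⟨PMap.refl P, PMap.refl P⟩

lemma PEq.symm {P Q : Polarized 𝒱} (h : PEq W P Q) : PEq W Q P := ⟨h.2, h.1⟩

lemma PEq.trans {P Q R : Polarized 𝒱} (h : PEq W P Q) (h' : PEq W Q R) : PEq W P R :=
  ⟨h.1.trans h'.1, h'.2.trans h.2⟩

lemma PEq.prod {P P' Q Q' : Polarized 𝒱} (h : PEq W P P') (h' : PEq W Q Q') :
    PEq W (P.prod ops Q) (P'.prod ops Q') := ⟨h.1.prod h'.1, h.2.prod h'.2⟩

/-- The power of `P` with `n + 1` factors. -/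
noncomputable abbrev pw (ops : CycleOps 𝒱) (P : Polarized 𝒱) (n : ℕ) : Polarized 𝒱 :=
  nest ops n (fun _ => P)

lemma pw_succ (P : Polarized 𝒱) (n : ℕ) : pw ops P (n + 1) = P.prod ops (pw ops P n) := rfl

/-- The power as the product of two powers. -/
lemma pw_split (P : Polarized 𝒱) (a b : ℕ) :
    PEq W (pw ops P (a + b + 1)) ((pw ops P a).prod ops (pw ops P b)) := by
  induction a with
  | zero => rw [zero_add, pw_succ]; exact PEq.refl _
  | succ a ih =>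
    rw [show a + 1 + b + 1 = (a + b + 1) + 1 by ring, pw_succ, pw_succ]
    exact ((PEq.refl P).prod ih).trans ⟨PMap.assoc _ _ _, PMap.assoc' _ _ _⟩

/-- `q` factors `Y` and one factor `R`. -/
noncomputable def tw (ops : CycleOps 𝒱) (Y R : Polarized 𝒱) : ℕ → Polarized 𝒱
  | 0 => R
  | q + 1 => Y.prod ops (tw ops Y R q)

lemma pw_tw (P : Polarized 𝒱) (m r q : ℕ) :
    PEq W (pw ops P ((2 * m + 2) * q + r))
      (tw ops ((pw ops P m).prod ops (pw ops P m)) (pw ops P r) q) := by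
  induction q with
  | zero => rw [mul_zero, zero_add]; exact PEq.refl _
  | succ q ih =>
    rw [show (2 * m + 2) * (q + 1) + r = (m + m + 1) + ((2 * m + 2) * q + r) + 1 by ring]
    exact (pw_split P _ _).trans ((pw_split P m m).prod ih)

/-- Orthogonal families of primitive cycles can be pulled back. -/
lemma PMap.hasFamily {P Q : Polarized 𝒱} (h : PMap W P Q) (hP : P.X.IsCyc 1 P.D)
    (hQ : Q.X.IsCyc 1 Q.D) {n : ℕ} (hn : 2 * n ≤ P.X.dim) {s : ℚ} {r : ℕ}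
    (hf : HasFamily W Q.X Q.D n s r) : HasFamily W P.X P.D n s r := by
  obtain ⟨hd, φ, hcl, htr⟩ := h
  obtain ⟨z, hz, hpos, horth⟩ := hf
  have hpow : ∀ (m : ℕ) (x : W.H Q.X),
      ((LinearMap.mulLeft W.K (W.cl P.X P.D)) ^ m) (W.map φ x) =
        W.map φ (((LinearMap.mulLeft W.K (W.cl Q.X Q.D)) ^ m) x) := by
    intro m
    induction m with
    | zero => intro x; simp
    | succ m ih =>
      intro x
      rw [pow_succ, Module.End.mul_apply, LinearMap.mulLeft_apply, ← hcl, ← map_mul, hcl, ih,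
        pow_succ, Module.End.mul_apply, LinearMap.mulLeft_apply]
  have hprim : ∀ i, Primitive W P.X P.D n (ops.pull φ (z i)) := by
    intro i
    refine ⟨ops.pull_mem _ (hz i).1, ?_⟩
    have h1 := (hz i).2
    rw [cl_divPow] at h1
    rw [cl_divPow, W.cl_pull, hpow, hd, h1, map_zero]
  have hpair : ∀ i j, pairing ops P.X P.D n (ops.pull φ (z i)) (ops.pull φ (z j)) =
      pairing ops Q.X Q.D n (z i) (z j) := by
    intro i j
    have h1 : ((pairing ops P.X P.D n (ops.pull φ (z i)) (ops.pull φ (z j)) : ℚ) : W.K) =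
        ((pairing ops Q.X Q.D n (z i) (z j) : ℚ) : W.K) := by
      rw [pairing_cast hP hn (hprim i).1 (hprim j).1,
        pairing_cast hQ (hd ▸ hn) (hz i).1 (hz j).1, W.cl_pull, W.cl_pull, hpow,
        ← map_mul, htr, hd]
    exact_mod_cast h1
  exact ⟨fun i => ops.pull φ (z i), hprim, fun i => by rw [hpair]; exact hpos i,
    fun i j hij => by rw [hpair]; exact horth i j hij⟩

/-- The largest number of pairwise orthogonal primitive cycles with squares of sign `s`. -/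
noncomputable def idx (W : WeilCohomology.{u, v} ops) (X : 𝒱.Obj) (D : X.Cycles) (n : ℕ)
    (s : ℚ) : ℕ := sSup {r | HasFamily W X D n s r}

lemma PEq.idx_eq {P Q : Polarized 𝒱} (h : PEq W P Q) (hP : P.X.IsCyc 1 P.D)
    (hQ : Q.X.IsCyc 1 Q.D) {n : ℕ} (hn : 2 * n ≤ P.X.dim) (s : ℚ) :
    idx W P.X P.D n s = idx W Q.X Q.D n s := by
  rw [idx, idx]
  congr 1
  ext r
  exact ⟨fun hf => h.2.hasFamily hQ hP (h.1.1 ▸ hn) hf, fun hf => h.1.hasFamily hP hQ hn hf⟩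

lemma PEq.sig_eq {P Q : Polarized 𝒱} (h : PEq W P Q) (hP : P.X.IsCyc 1 P.D)
    (hQ : Q.X.IsCyc 1 Q.D) {n : ℕ} (hn : 2 * n ≤ P.X.dim) :
    sig W P.X P.D n = sig W Q.X Q.D n := by
  have h1 := h.idx_eq hP hQ hn 1
  have h2 := h.idx_eq hP hQ hn (-1)
  rw [idx, idx] at h1 h2
  rw [W539.Ker.sig, W539.Ker.sig, h1, h2]

lemma PEq.wsum_eq {P Q : Polarized 𝒱} (h : PEq W P Q) (hP : P.X.IsCyc 1 P.D)
    (hQ : Q.X.IsCyc 1 Q.D) (m : ℤ) :
    wsum P.X.dim (sig W P.X P.D) m = wsum Q.X.dim (sig W Q.X Q.D) m := by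
  rw [wsum, wsum, ← h.1.1]
  apply Finset.sum_congr rfl
  intro n hn
  rw [Finset.mem_range] at hn
  rw [h.sig_eq hP hQ (by omega)]

end Pool.Agent.V7H23.ZO
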