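import Pool.Agent.V7H23.ZO.Pow

/-!
# The upper bound for the signatures on the powers
-/

open CategoryTheory AlgebraicGeometry Finset

universe u v

namespace Pool.Agent.V7H23.ZO

open Pool.Agent.H914 Pool.Agent.H914.VarClass Pool.Agent.H914.VarClass.Obj
  Pool.Agent.H914.WeilCohomology Pool.Agent.H281R3.HT Pool.Agent.W552 Pool.Agent.W539.Ker

variable {k : Type u} [Field k] {𝒱 : VarClass k} {ops : CycleOps 𝒱}
  {W : WeilCohomology.{u, v} ops} {X Y Z : 𝒱.Obj}

/-- The form is positive on the fundamental class. -/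
def Pos1 (W : WeilCohomology.{u, v} ops) (X : 𝒱.Obj) (D : X.Cycles)
    (f : Module.End W.K (W.H X)) : Prop := ∃ a : ℚ, 0 < a ∧ bf W X D f 1 1 = a

section One

variable {D : X.Cycles} {f : Module.End W.K (W.H X)} (F : Fr W X D f)

include F

lemma prim_fund : Primitive W X D 0 X.V.fundCycle := by
  refine ⟨X.V.fundCycle_mem, ?_⟩
  rw [cl_divPow, W.cl_fund]
  have h1 := pow_L_mem (mulLeft_isHom F.hD) (W.one_mem X) (X.dim - 2 * 0 + 1)
  rw [W_hbd _ (by omega)] at h1
  exact (Submodule.mem_bot _).1 h1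

lemma bf_one : bf W X D f 1 1 =
    (((X.dim.factorial : ℚ)⁻¹ * pairing ops X D 0 X.V.fundCycle X.V.fundCycle : ℚ) : W.K) := by
  have h1 := bf_same F (n := 0) (by omega) (prim_fund F) (prim_fund F) (j := 0) (by omega)
  rw [pow_zero, Module.End.one_apply, W.cl_fund] at h1
  rw [h1]
  simp

lemma pos1_of_deg (h : 0 < X.V.degCycle (divPow ops D X.dim X.V.fundCycle)) :
    Pos1 W X D f := by
  refine ⟨_, ?_, bf_one F⟩
  have h1 : pairing ops X D 0 X.V.fundCycle X.V.fundCycle =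
      X.V.degCycle (divPow ops D X.dim X.V.fundCycle) := by
    have h2 : ((pairing ops X D 0 X.V.fundCycle X.V.fundCycle : ℚ) : W.K) =
        ((X.V.degCycle (divPow ops D X.dim X.V.fundCycle) : ℚ) : W.K) := by
      have h3 := divPow_mem (ops := ops) F.hD X.dim X.V.fundCycle_mem
      rw [zero_add] at h3
      rw [pairing_cast F.hD (by omega) X.V.fundCycle_mem X.V.fundCycle_mem, ← W.tr_cl h3,
        cl_divPow, W.cl_fund]
      simp
    exact_mod_cast h2
  rw [h1]
  positivity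

/-- **A pair of algebraic classes with squares of opposite signs.** -/
theorem exists_hpair (S : Sy W X D f) (hp : Pos1 W X D f) {n : ℕ} (hn : 2 * n ≤ X.dim)
    {z : X.Cycles} (hz : Primitive W X D n z) (hneg : pairing ops X D n z z < 0) :
    ∃ e v, HPair W (X.prod X) (ops.pull (fst X X) D + ops.pull (snd X X) D) (extSum W f f)
      e v := by
  set L := LinearMap.mulLeft W.K (W.cl X D) with hL
  obtain ⟨a, ha, h11⟩ := hp
  -- the square of the primitive class
  obtain ⟨q, hq, hvv⟩ : ∃ q : ℚ, q < 0 ∧ bf W X D f (W.cl X z) (W.cl X z) = q := by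
    have h1 := bf_same F hn hz hz (j := 0) (by omega)
    rw [pow_zero, Module.End.one_apply] at h1
    refine ⟨_, ?_, h1⟩
    exact mul_neg_of_pos_of_neg (by positivity) hneg
  have hn0 : n ≠ 0 := by
    rintro rfl
    have h1 : W.cl X z ∈ W.gr X 0 := by
      have := W.cl_mem hz.1
      rwa [mul_zero] at this
    rw [W.gr_zero] at h1
    obtain ⟨r, hr⟩ := Submodule.mem_span_singleton.1 h1
    obtain ⟨q', hq'⟩ := F.bf_rat (AS.of ⟨z, hz.1, rfl⟩) (AS.one (W := W) (X := X))
    rw [← hr, map_smul, LinearMap.smul_apply, h11, smul_eq_mul] at hq'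
    rw [← hr, map_smul, map_smul, LinearMap.smul_apply, h11, smul_eq_mul, smul_eq_mul] at hvv
    have h2 : ((q * a : ℚ) : W.K) = ((q' * q' : ℚ) : W.K) := by
      push_cast
      rw [← hvv, ← hq']
      ring
    have h3 : q * a = q' * q' := by exact_mod_cast h2
    have h4 : q * a < 0 := mul_neg_of_neg_of_pos hq ha
    have h5 := mul_self_nonneg q'
    linarith
  -- the power of the divisor
  have hf := prim_fund F
  have hpf : 0 < pairing ops X D 0 X.V.fundCycle X.V.fundCycle := by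
    have h1 := bf_one F
    rw [h11] at h1
    have h2 : a = (X.dim.factorial : ℚ)⁻¹ * pairing ops X D 0 X.V.fundCycle X.V.fundCycle := by
      exact_mod_cast h1
    rw [h2] at ha
    exact (pos_iff_pos_of_mul_pos ha).1 (by positivity)
  have hu1 : (L ^ n) (1 : W.H X) = (L ^ n) (W.cl X X.V.fundCycle) := by rw [W.cl_fund]
  obtain ⟨p, hp, huu⟩ : ∃ p : ℚ, 0 < p ∧ bf W X D f ((L ^ n) 1) ((L ^ n) 1) = p := by
    have h1 := bf_same F (n := 0) (by omega) hf hf (j := n) (by omega)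
    rw [hu1]
    exact ⟨_, by positivity, h1⟩
  have hvu : bf W X D f (W.cl X z) ((L ^ n) 1) = 0 := by
    have h1 := bf_cross F hn (n' := 0) (by omega) hn0 hz hf (j := 0) (j' := n) (by omega)
      (by omega)
    rw [pow_zero, Module.End.one_apply] at h1
    rw [hu1]
    exact h1
  have hzA : AS W X (W.cl X z) := AS.of ⟨z, hz.1, rfl⟩
  have huA : AS W X ((L ^ n) 1) := by
    rw [hu1, ← cl_divPow]
    exact AS.of ⟨_, divPow_mem F.hD n X.V.fundCycle_mem, rfl⟩
  have hzg : W.cl X z ∈ W.gr X (2 * n) := W.cl_mem hz.1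
  have hug : (L ^ n) (1 : W.H X) ∈ W.gr X (2 * n) := by
    have := pow_L_mem (mulLeft_isHom F.hD) (W.one_mem X) n
    rwa [zero_add] at this
  have hwt : ∀ a ∈ W.gr X (2 * n), ∀ b ∈ W.gr X (2 * n),
      wt (W.isInternal (X.prod X)) (X.prod X).dim (H281R3.HT.ext W a b) =
        (2 * (((2 * n : ℕ) : W.K) - X.dim)) • H281R3.HT.ext W a b := by
    intro a ha b hb
    rw [wt_prod, H281R3.HT.ext, extSum_tmul, Fr.wt_gr ha, Fr.wt_gr hb, map_smul, map_smul,
      smul_mul_assoc, mul_smul_comm, ← add_smul]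
    congr 1
    ring
  refine ⟨H281R3.HT.ext W (W.cl X z) (W.cl X z), H281R3.HT.ext W (W.cl X z) ((L ^ n) 1),
    hzA.ext hzA, hzA.ext huA, ⟨_, hwt _ hzg _ hzg, hwt _ hzg _ hug⟩, ?_, ?_, ?_⟩
  · refine ⟨q * q, mul_pos_of_neg_of_neg hq hq, ?_⟩
    rw [F.bf_ext F, hvv]
    push_cast; ring
  · refine ⟨-(q * p), by nlinarith [mul_pos (neg_pos.2 hq) hp], ?_⟩
    rw [F.bf_ext F, hvv, huu]
    push_cast; ring
  · rw [F.bf_ext F, hvu, mul_zero]

end One

lemma pos1_prod {D : X.Cycles} {f : Module.End W.K (W.H X)} (F : Fr W X D f) {E : Y.Cycles}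
    {g : Module.End W.K (W.H Y)} (G : Fr W Y E g) (h : Pos1 W X D f) (h' : Pos1 W Y E g) :
    Pos1 W (X.prod Y) (ops.pull (fst X Y) D + ops.pull (snd X Y) E) (extSum W f g) := by
  obtain ⟨a, ha, h1⟩ := h
  obtain ⟨b, hb, h2⟩ := h'
  refine ⟨a * b, mul_pos ha hb, ?_⟩
  have h3 := F.bf_ext G 1 1 1 1
  have h4 : H281R3.HT.ext W (1 : W.H X) (1 : W.H Y) = 1 := by
    rw [H281R3.HT.ext, map_one, map_one, one_mul]
  rw [h4, h1, h2] at h3
  rw [h3]
  push_cast
  rfl

/-- Frames on the powers. -/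
lemma exists_fr_pw (P : Polarized 𝒱) {f : Module.End W.K (W.H P.X)} (F : Fr W P.X P.D f)
    (S : Sy W P.X P.D f) (hp : Pos1 W P.X P.D f) (n : ℕ) :
    ∃ g : Module.End W.K (W.H (pw ops P n).X), Fr W (pw ops P n).X (pw ops P n).D g ∧
      Sy W (pw ops P n).X (pw ops P n).D g ∧ Pos1 W (pw ops P n).X (pw ops P n).D g := by
  induction n with
  | zero => exact ⟨f, F, S, hp⟩
  | succ n ih =>
    obtain ⟨g, G, T, hg⟩ := ih
    exact ⟨extSum W f g, F.prod G, S.prod F G T, pos1_prod F G hp hg⟩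

lemma finrank_prod (X Y : 𝒱.Obj) : Module.finrank W.K (W.H (X.prod Y)) =
    Module.finrank W.K (W.H X) * Module.finrank W.K (W.H Y) := by
  rw [← (kappa W X Y).finrank_eq]
  exact Module.finrank_tensorProduct

lemma finrank_pw (P : Polarized 𝒱) (n : ℕ) : Module.finrank W.K (W.H (pw ops P n).X) =
    Module.finrank W.K (W.H P.X) ^ (n + 1) := by
  induction n with
  | zero => rw [zero_add, pow_one]; rfl
  | succ n ih =>
    have h1 := finrank_prod (W := W) P.X (pw ops P n).X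
    rw [ih] at h1
    rw [pow_succ, mul_comm]
    exact h1

lemma dim_pw (P : Polarized 𝒱) (n : ℕ) : (pw ops P n).X.dim = (n + 1) * P.X.dim := by
  induction n with
  | zero => rw [zero_add, one_mul]; rfl
  | succ n ih =>
    have h1 : (pw ops P (n + 1)).X.dim = P.X.dim + (pw ops P n).X.dim := rfl
    rw [h1, ih]; ring

lemma HasOps.tw {P R : Polarized 𝒱} {f : Module.End W.K (W.H P.X)} (F : Fr W P.X P.D f)
    (S : Sy W P.X P.D f) {e v : W.H P.X} (h : HPair W P.X P.D f e v)
    {g : Module.End W.K (W.H R.X)} (G : Fr W R.X R.D g) (T : Sy W R.X R.D g) (q : ℕ) :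
    HasOps W (tw ops P R q).X (tw ops P R q).D
      ((Module.finrank W.K (W.H P.X) - 2) ^ q * Module.finrank W.K (W.H R.X)) := by
  induction q with
  | zero => rw [pow_zero, one_mul]; exact HasOps.base G T
  | succ q ih =>
    have h1 := HasOps.prod F S h ih
    rw [← mul_assoc, ← pow_succ'] at h1
    exact h1

lemma isCyc_tw {P R : Polarized 𝒱} (h : P.X.IsCyc 1 P.D) (h' : R.X.IsCyc 1 R.D) (q : ℕ) :
    (tw ops P R q).X.IsCyc 1 (tw ops P R q).D := by
  induction q with
  | zero => exact h'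
  | succ q ih => exact SmVar.IsCyc.add (ops.pull_mem _ h) (ops.pull_mem _ ih)

/-- **The upper bound for the signatures on the powers.** -/
theorem wsum_pw_le (P : Polarized 𝒱) {f : Module.End W.K (W.H P.X)} (F : Fr W P.X P.D f)
    (S : Sy W P.X P.D f) (hp : Pos1 W P.X P.D f) {m n : ℕ} (hn : 2 * n ≤ (pw ops P m).X.dim)
    (hneg : HasFamily W (pw ops P m).X (pw ops P m).D n (-1) 1) (N : ℕ) (w : ℤ) :
    |wsum (pw ops P N).X.dim (W539.Ker.sig W (pw ops P N).X (pw ops P N).D) w| ≤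
      ((Module.finrank W.K (W.H P.X) ^ (2 * m + 2) - 2) ^ (N / (2 * m + 2)) *
        Module.finrank W.K (W.H P.X) ^ (N % (2 * m + 2) + 1) : ℕ) := by
  obtain ⟨g, G, T, hg⟩ := exists_fr_pw (ops := ops) P F S hp m
  obtain ⟨z, hz, hneg, -⟩ := hneg
  have hneg0 := hneg 0
  obtain ⟨e, v, hev⟩ := exists_hpair G T hg hn (hz 0) (by linarith)
  obtain ⟨g', G', T', -⟩ := exists_fr_pw (ops := ops) P F S hp (N % (2 * m + 2))
  have h1 := HasOps.tw (P := (pw ops P m).prod ops (pw ops P m))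
    (R := pw ops P (N % (2 * m + 2))) (G.prod G) (T.prod G G T) hev G' T' (N / (2 * m + 2))
  have h2 := h1.wsum_le w
  have h3 : Module.finrank W.K (W.H ((pw ops P m).prod ops (pw ops P m)).X) =
      Module.finrank W.K (W.H P.X) ^ (2 * m + 2) := by
    have h4 := finrank_prod (W := W) (pw ops P m).X (pw ops P m).X
    rw [finrank_pw] at h4
    rw [show 2 * m + 2 = (m + 1) + (m + 1) by ring, pow_add]
    exact h4
  rw [h3, finrank_pw] at h2
  obtain ⟨gN, GN, -⟩ := exists_fr_pw (ops := ops) P F S hp N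
  have h5 := pw_tw (W := W) P m (N % (2 * m + 2)) (N / (2 * m + 2))
  rw [Nat.div_add_mod] at h5
  rw [h5.wsum_eq GN.hD (isCyc_tw (G.prod G).hD G'.hD _)]
  exact h2

/-- The values in terms of the partial sums. -/
lemma wsum_sub (d : ℕ) (σ : ℕ → ℤ) {n : ℕ} (hn : 2 * n ≤ d) :
    wsum d σ ((d : ℤ) - 2 * n) - wsum d σ ((d : ℤ) - 2 * n + 2) = σ n := by
  rw [wsum, wsum, ← Finset.sum_sub_distrib, Finset.sum_eq_single n]
  · rw [if_pos, if_neg, sub_zero]
    · rintro ⟨h1, -⟩
      rw [abs_of_nonneg (by omega)] at h1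
      omega
    · refine ⟨?_, by omega⟩
      rw [abs_of_nonneg (by omega)]
  · intro i hi hne
    rw [Finset.mem_range] at hi
    by_cases h1 : i < n
    · rw [if_pos, if_pos, sub_self]
      · refine ⟨?_, by omega⟩
        rw [abs_of_nonneg (by omega)]
        omega
      · refine ⟨?_, by omega⟩
        rw [abs_of_nonneg (by omega)]
        omega
    · rw [if_neg, if_neg, sub_self]
      · rintro ⟨h2, -⟩
        rw [abs_of_nonneg (by omega)] at h2
        omega
      · rintro ⟨h2, -⟩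
        rw [abs_of_nonneg (by omega)] at h2
        omega
  · intro h
    exact absurd (Finset.mem_range.2 (by omega)) h

lemma abs_le_of_wsum {d : ℕ} {σ : ℕ → ℤ} {B : ℤ} (h : ∀ w, |wsum d σ w| ≤ B) {n : ℕ}
    (hn : 2 * n ≤ d) : |σ n| ≤ 2 * B := by
  rw [← wsum_sub d σ hn]
  refine (abs_sub _ _).trans ?_
  have h1 := h ((d : ℤ) - 2 * n)
  have h2 := h ((d : ℤ) - 2 * n + 2)
  linarith

end Pool.Agent.V7H23.ZO
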